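import Pool.Agent.H272.RD.Tensor

/-!
The extension of a bump function of one variable: a lower bound for the `L^q` norms of the time
slices.
-/

open MeasureTheory Set Filter Metric
open scoped ENNReal NNReal Topology ContDiff SchwartzMap FourierTransform

namespace Pool.Agent.H272.RD

open Pool.Agent.Helper184.PH

/-- a bump function -/
noncomputable def bmp : ContDiffBump (0 : ℝ) := ⟨1 / 2, 1, by norm_num, by norm_num⟩

/-- the bump function times a chirp -/
noncomputable def hh (t s : ℝ) : ℂ :=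
  (bmp s : ℂ) * Complex.exp ((2 * Real.pi * (s ^ 2 * t) : ℝ) * Complex.I)

theorem hh_smooth (t : ℝ) : ContDiff ℝ ∞ (hh t) := by
  unfold hh
  have h1 : ContDiff ℝ ∞ fun s : ℝ => ((bmp s : ℝ) : ℂ) :=
    Complex.ofRealCLM.contDiff.comp bmp.contDiff
  refine h1.mul ?_
  have h0 : ContDiff ℝ ∞ fun s : ℝ => 2 * Real.pi * (s ^ 2 * t) := by fun_prop
  have h2 : ContDiff ℝ ∞ fun s : ℝ => ((2 * Real.pi * (s ^ 2 * t) : ℝ) : ℂ) :=
    Complex.ofRealCLM.contDiff.comp h0
  exact (h2.mul contDiff_const).cexp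

theorem hh_zero {t s : ℝ} (hs : 1 ≤ |s|) : hh t s = 0 := by
  unfold hh
  rw [bmp.zero_of_le_dist (by rw [Real.dist_eq, sub_zero]; exact hs)]
  simp

theorem hh_supp (t : ℝ) : HasCompactSupport (hh t) := by
  refine HasCompactSupport.intro (isCompact_closedBall (0 : ℝ) 1) fun s hs => hh_zero ?_
  rw [mem_closedBall, Real.dist_eq, sub_zero, not_le] at hs
  exact hs.le

/-- the same as a Schwartz function -/
noncomputable def hS (t : ℝ) : 𝓢(ℝ, ℂ) := (hh_supp t).toSchwartzMap (hh_smooth t)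

theorem hS_coe (t : ℝ) : (hS t : ℝ → ℂ) = hh t := rfl

theorem hh_norm (t s : ℝ) : ‖hh t s‖ = bmp s := by
  unfold hh
  rw [norm_mul, Complex.norm_exp_ofReal_mul_I, mul_one, Complex.norm_real, Real.norm_eq_abs,
    abs_of_nonneg bmp.nonneg]

/-- the `L²` mass of the bump function -/
noncomputable def c1 : ℝ := ∫ s, (bmp s) ^ 2

theorem bmp_sq_int : Integrable fun s : ℝ => (bmp s) ^ 2 := by
  have h : Continuous fun s : ℝ => (bmp s) ^ 2 := bmp.continuous.pow 2
  refine h.integrable_of_hasCompactSupport ?_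
  refine HasCompactSupport.intro (isCompact_closedBall (0 : ℝ) 1) fun s hs => ?_
  rw [mem_closedBall, not_le] at hs
  rw [bmp.zero_of_le_dist hs.le]
  simp

theorem c1_pos : 0 < c1 := by
  unfold c1
  rw [integral_pos_iff_support_of_nonneg (fun s => sq_nonneg _) bmp_sq_int]
  have h : Set.Ioo (-1 / 2 : ℝ) (1 / 2) ⊆ Function.support fun s : ℝ => (bmp s) ^ 2 := by
    intro s hs
    have h1 : bmp s = 1 := bmp.one_of_mem_closedBall (by
      rw [mem_closedBall, Real.dist_eq, sub_zero]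
      show |s| ≤ 1 / 2
      exact abs_le.2 ⟨by linarith [hs.1], hs.2.le⟩)
    simp [Function.mem_support, h1]
  refine lt_of_lt_of_le ?_ (measure_mono h)
  rw [Real.volume_Ioo]
  simp only [ENNReal.ofReal_pos]
  norm_num

theorem mass (t : ℝ) : ∫ y, ‖𝓕 (hh t) y‖ ^ 2 = c1 := by
  have h := SchwartzMap.integral_norm_sq_fourier (hS t)
  rw [SchwartzMap.fourier_coe, hS_coe] at h
  rw [h, c1]
  simp only [hh_norm]

theorem bmp_deriv_bdd : ∃ M : ℝ, 0 ≤ M ∧ ∀ s, ‖deriv (fun s : ℝ => ((bmp s : ℝ) : ℂ)) s‖ ≤ M := by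
  have h1 : ContDiff ℝ ∞ fun s : ℝ => ((bmp s : ℝ) : ℂ) :=
    Complex.ofRealCLM.contDiff.comp bmp.contDiff
  have h2 : Continuous (deriv fun s : ℝ => ((bmp s : ℝ) : ℂ)) :=
    h1.continuous_deriv (by simp)
  have h3 : HasCompactSupport fun s : ℝ => ((bmp s : ℝ) : ℂ) := by
    refine HasCompactSupport.intro (isCompact_closedBall (0 : ℝ) 1) fun s hs => ?_
    rw [mem_closedBall, not_le] at hs
    rw [bmp.zero_of_le_dist hs.le]
    simp
  obtain ⟨M, hM⟩ := h2.bounded_above_of_compact_support h3.deriv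
  exact ⟨M, (norm_nonneg _).trans (hM 0), hM⟩

theorem deriv_hh (t s : ℝ) : deriv (hh t) s =
    (deriv (fun s : ℝ => ((bmp s : ℝ) : ℂ)) s + (bmp s : ℂ) * ((4 * Real.pi * s * t : ℝ) * Complex.I))
      * Complex.exp ((2 * Real.pi * (s ^ 2 * t) : ℝ) * Complex.I) := by
  have h1 : ContDiff ℝ ∞ fun s : ℝ => ((bmp s : ℝ) : ℂ) :=
    Complex.ofRealCLM.contDiff.comp bmp.contDiff
  have h2 : HasDerivAt (fun s : ℝ => ((bmp s : ℝ) : ℂ)) (deriv (fun s : ℝ => ((bmp s : ℝ) : ℂ)) s) s :=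
    ((h1.differentiable (by simp)) s).hasDerivAt
  have h3 : HasDerivAt (fun s : ℝ => (2 * Real.pi * (s ^ 2 * t) : ℝ)) (4 * Real.pi * s * t) s := by
    have := ((hasDerivAt_pow 2 s).mul_const t).const_mul (2 * Real.pi)
    refine this.congr_deriv ?_
    norm_num
    ring
  have h4 := (h3.ofReal_comp.mul_const Complex.I).cexp
  have h5 := h2.mul h4
  have h6 : deriv (hh t) s = _ := h5.deriv
  rw [h6]
  ring

theorem deriv_hh_bdd : ∃ B : ℝ, 0 < B ∧ ∀ t s, ‖deriv (hh t) s‖ ≤ B * (1 + |t|) := by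
  obtain ⟨M, hM0, hM⟩ := bmp_deriv_bdd
  refine ⟨M + 4 * Real.pi, by positivity, fun t s => ?_⟩
  by_cases hs : 1 < |s|
  · have h1 : hh t =ᶠ[𝓝 s] fun _ => 0 := by
      have h2 : ∀ᶠ x in 𝓝 s, 1 < |x| := (continuous_abs.tendsto s).eventually (lt_mem_nhds hs)
      filter_upwards [h2] with x hx
      exact hh_zero hx.le
    rw [h1.deriv_eq, deriv_const, norm_zero]
    positivity
  · rw [not_lt] at hs
    rw [deriv_hh, norm_mul, Complex.norm_exp_ofReal_mul_I, mul_one]
    refine (norm_add_le _ _).trans ?_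
    have h1 : ‖(bmp s : ℂ) * ((4 * Real.pi * s * t : ℝ) * Complex.I)‖ ≤ 4 * Real.pi * |t| := by
      rw [norm_mul, norm_mul, Complex.norm_I, mul_one, Complex.norm_real, Complex.norm_real,
        Real.norm_eq_abs, Real.norm_eq_abs, abs_of_nonneg bmp.nonneg, abs_mul, abs_mul,
        abs_of_nonneg (by positivity : (0 : ℝ) ≤ 4 * Real.pi)]
      have h2 : bmp s ≤ 1 := bmp.le_one
      have h3 : 0 ≤ bmp s := bmp.nonneg
      have h4 : 4 * Real.pi * |s| * |t| ≤ 4 * Real.pi * |t| := by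
        have : 0 ≤ 4 * Real.pi * |t| := by positivity
        nlinarith [Real.pi_pos, abs_nonneg s, abs_nonneg t]
      calc bmp s * (4 * Real.pi * |s| * |t|) ≤ 1 * (4 * Real.pi * |s| * |t|) := by gcongr
        _ ≤ _ := by rw [one_mul]; exact h4
    have h5 := hM s
    have h6 : 0 ≤ M * |t| := by positivity
    nlinarith [Real.pi_pos]

theorem deriv_zero {t s : ℝ} (hs : 1 < |s|) : deriv (hh t) s = 0 := by
  have h1 : hh t =ᶠ[𝓝 s] fun _ => 0 := by
    have h2 : ∀ᶠ x in 𝓝 s, 1 < |x| := (continuous_abs.tendsto s).eventually (lt_mem_nhds hs)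
    filter_upwards [h2] with x hx
    exact hh_zero hx.le
  rw [h1.deriv_eq, deriv_const]

theorem moment : ∃ B : ℝ, 0 < B ∧ ∀ t : ℝ,
    (∫⁻ y, ENNReal.ofReal (y ^ 2 * ‖𝓕 (hh t) y‖ ^ 2)) ≤ ENNReal.ofReal ((B * (1 + |t|)) ^ 2) := by
  obtain ⟨B, hB, hb⟩ := deriv_hh_bdd
  refine ⟨B, hB, fun t => ?_⟩
  set dS : 𝓢(ℝ, ℂ) := SchwartzMap.derivCLM ℝ ℂ (hS t) with hdS
  have hd : (dS : ℝ → ℂ) = deriv (hh t) := by
    funext s
    rw [hdS, SchwartzMap.derivCLM_apply, hS_coe]
  have h1 := SchwartzMap.integral_norm_sq_fourier dS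
  rw [SchwartzMap.fourier_coe, hd] at h1
  have hi : Integrable (hh t) := by
    have := (hS t).integrable (μ := volume); rwa [hS_coe] at this
  have hdi : Integrable (deriv (hh t)) := by
    have := dS.integrable (μ := volume); rwa [hd] at this
  have h2 : 𝓕 (deriv (hh t)) = _ :=
    Real.fourier_deriv hi ((hh_smooth t).differentiable (by simp)) hdi
  have hsq : Integrable fun y => ‖𝓕 (deriv (hh t)) y‖ ^ 2 := by
    have h4 := (𝓕 dS).memLp 2 (μ := volume)
    rw [SchwartzMap.fourier_coe, hd] at h4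
    exact h4.integrable_norm_pow (by norm_num)
  have h5 : ∀ y, y ^ 2 * ‖𝓕 (hh t) y‖ ^ 2 ≤ ‖𝓕 (deriv (hh t)) y‖ ^ 2 / 2 := by
    intro y
    rw [h2]
    simp only [norm_smul, norm_mul, Complex.norm_ofNat, Complex.norm_real, Complex.norm_I, mul_one,
      Real.norm_eq_abs, abs_of_pos Real.pi_pos]
    rw [mul_pow, mul_pow, sq_abs]
    have h6 : (0 : ℝ) ≤ y ^ 2 * ‖𝓕 (hh t) y‖ ^ 2 := by positivity
    have h7 : (1 : ℝ) ≤ (2 * Real.pi) ^ 2 / 2 := by nlinarith [Real.pi_gt_three]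
    nlinarith
  calc (∫⁻ y, ENNReal.ofReal (y ^ 2 * ‖𝓕 (hh t) y‖ ^ 2))
      ≤ ∫⁻ y, ENNReal.ofReal (‖𝓕 (deriv (hh t)) y‖ ^ 2 / 2) :=
        lintegral_mono fun y => ENNReal.ofReal_le_ofReal (h5 y)
    _ = ENNReal.ofReal (∫ y, ‖𝓕 (deriv (hh t)) y‖ ^ 2 / 2) := by
        rw [ofReal_integral_eq_lintegral_ofReal (hsq.div_const 2)
          (Eventually.of_forall fun y => by positivity)]
    _ ≤ ENNReal.ofReal ((B * (1 + |t|)) ^ 2) := by
        apply ENNReal.ofReal_le_ofReal
        rw [integral_div, h1]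
        have h8 : ∫ s, ‖deriv (hh t) s‖ ^ 2 ≤ ∫ s in Set.Icc (-1 : ℝ) 1, (B * (1 + |t|)) ^ 2 := by
          rw [← integral_indicator measurableSet_Icc]
          refine integral_mono_of_nonneg (Eventually.of_forall fun s => by positivity) ?_ ?_
          · rw [integrable_indicator_iff measurableSet_Icc]
            exact integrableOn_const (by simp)
          · refine Eventually.of_forall fun s => ?_
            by_cases hs : s ∈ Set.Icc (-1 : ℝ) 1
            · rw [indicator_of_mem hs]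
              exact pow_le_pow_left₀ (norm_nonneg _) (hb t s) 2
            · rw [indicator_of_notMem hs]
              have : 1 < |s| := by
                by_contra h
                rw [not_lt, abs_le] at h
                exact hs h
              beta_reduce
              rw [deriv_zero this]
              simp
        have h9 : ∫ s in Set.Icc (-1 : ℝ) 1, (B * (1 + |t|)) ^ 2 = 2 * (B * (1 + |t|)) ^ 2 := by
          rw [setIntegral_const, measureReal_def, Real.volume_Icc]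
          norm_num
        linarith

end Pool.Agent.H272.RD
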