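import Pool.Agent.H272.RD.Low

/-!
From high to low dimensions.
-/

open MeasureTheory Set Filter Metric
open scoped ENNReal NNReal Topology

namespace Pool.Agent.H272.RD

open Pool.Agent.Helper184.PH

/-- `f ⊗ g ⊗ ⋯ ⊗ g` -/
noncomputable def up {n : ℕ} (f : E n → ℂ) : (k : ℕ) → (E (n + k) → ℂ)
  | 0 => f
  | k + 1 => ten (n := n + k) (k := 1) (up f k) gg

/-- `f ⊗ ⋯ ⊗ f` -/
noncomputable def pw {n : ℕ} (f : E n → ℂ) : (m : ℕ) → (E (n * m) → ℂ)
  | 0 => fun _ => 1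
  | m + 1 => ten (n := n * m) (k := n) (pw f m) f

theorem up_meas {n : ℕ} {f : E n → ℂ} (hf : Measurable f) (k : ℕ) : Measurable (up f k) := by
  induction k with
  | zero => exact hf
  | succ k ih => exact ten_meas ih gg_meas

theorem up_le {n : ℕ} {f : E n → ℂ} (hf : ∀ ξ, ‖f ξ‖ ≤ 1) (k : ℕ) : ∀ ξ, ‖up f k ξ‖ ≤ 1 := by
  induction k with
  | zero => exact hf
  | succ k ih => exact ten_le ih gg_le

theorem A_up {n : ℕ} {f : E n → ℂ} (hf : Measurable f) {q : ℝ} (hq : 0 ≤ q) (k : ℕ) (t : ℝ) :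
    A q (up f k) t = A q f t * A q gg t ^ k := by
  induction k with
  | zero => simp [up]
  | succ k ih =>
    have h : A q (up f (k + 1)) t = A q (up f k) t * A q gg t := A_ten (up_meas hf k) gg_meas hq t
    rw [h, ih]
    ring

theorem pw_meas {n : ℕ} {f : E n → ℂ} (hf : Measurable f) (m : ℕ) : Measurable (pw f m) := by
  induction m with
  | zero => exact measurable_const
  | succ m ih => exact ten_meas ih hf

theorem pw_le {n : ℕ} {f : E n → ℂ} (hf : ∀ ξ, ‖f ξ‖ ≤ 1) (m : ℕ) : ∀ ξ, ‖pw f m ξ‖ ≤ 1 := by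
  induction m with
  | zero => intro ξ; simp [pw]
  | succ m ih => exact ten_le ih hf

theorem A_one (q : ℝ) (n : ℕ) (t : ℝ) : A q (fun _ : E (n * 0) => (1 : ℂ)) t = 1 := by
  have hv : (volume : Measure (E (n * 0))) = Measure.dirac 0 :=
    haveI : IsEmpty (Fin (n * 0)) := by rw [Nat.mul_zero]; infer_instance
    volume_euclideanSpace_eq_dirac _
  have h1 : ∀ x : E (n * 0), ext (fun _ => (1 : ℂ)) (x, t) = 1 := by
    intro x
    have h2 : cube (n * 0) = univ := by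
      ext ξ
      simp only [mem_univ, iff_true]
      intro i
      exact (Nat.not_lt_zero _ i.2).elim
    unfold ext
    rw [h2, Measure.restrict_univ, hv, integral_dirac]
    unfold KP
    have h3 : x = 0 := by
      ext i
      exact (Nat.not_lt_zero _ i.2).elim
    simp [h3]
  unfold A
  simp only [h1, enorm_one, ENNReal.one_rpow]
  rw [hv]
  simp

theorem A_pw {n : ℕ} {f : E n → ℂ} (hf : Measurable f) {q : ℝ} (hq : 0 ≤ q) (m : ℕ) (t : ℝ) :
    A q (pw f m) t = A q f t ^ m := by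
  induction m with
  | zero => rw [pow_zero]; exact A_one q n t
  | succ m ih =>
    have h : A q (pw f (m + 1)) t = A q (pw f m) t * A q f t := A_ten (pw_meas hf m) hf hq t
    rw [h, ih, pow_succ]

/-- the extension estimate -/
def Estimate (n : ℕ) (q : ℝ) : Prop :=
  ∃ C : ℝ≥0, ∀ f : E n → ℂ, Measurable f → (∀ ξ, ‖f ξ‖ ≤ 1) → (∫⁻ x, ‖ext f x‖ₑ ^ q) ≤ C

/-- the local extension estimate with the bound `C R^τ` -/
def Loc (n : ℕ) (q τ : ℝ) : Prop :=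
  ∃ C : ℝ≥0, ∀ f : E n → ℂ, Measurable f → (∀ ξ, ‖f ξ‖ ≤ 1) → ∀ R : ℝ, 1 ≤ R →
    (∫⁻ x in closedBall (0 : E n × ℝ) R, ‖ext f x‖ₑ ^ q) ≤ C * ENNReal.ofReal (R ^ τ)

/-- **Weighted mixed norms.** -/
theorem mixed {n m k : ℕ} {q : ℝ} (hq : 2 ≤ q) (h : Estimate (n * m + k) q) :
    ∃ C : ℝ≥0, ∀ f : E n → ℂ, Measurable f → (∀ ξ, ‖f ξ‖ ≤ 1) →
      (∫⁻ t : ℝ, (∫⁻ x : E n, ‖ext f (x, t)‖ₑ ^ q) ^ m *
        ENNReal.ofReal ((1 + |t|) ^ (-(k * (q / 2 - 1))))) ≤ C := by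
  have hq0 : 0 ≤ q := by linarith
  obtain ⟨C, hC⟩ := h
  obtain ⟨c, hc, K, hK, hl⟩ := low_gg hq
  have hck0 : (c : ℝ≥0∞) ^ k ≠ 0 := pow_ne_zero _ (by exact_mod_cast hc.ne')
  have hckt : (c : ℝ≥0∞) ^ k ≠ ⊤ := ENNReal.pow_ne_top ENNReal.coe_ne_top
  refine ⟨C * (c ^ k)⁻¹, fun f hf hf1 => ?_⟩
  have h1 := hC (up (pw f m) k) (up_meas (pw_meas hf m) k) (up_le (pw_le hf1 m) k)
  rw [total (up_meas (pw_meas hf m) k)] at h1
  simp only [A_up (pw_meas hf m) hq0, A_pw hf hq0] at h1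
  have h2 : ∀ t : ℝ, (c : ℝ≥0∞) ^ k * ((A q f t) ^ m *
      ENNReal.ofReal ((1 + |t|) ^ (-(k * (q / 2 - 1))))) ≤ A q f t ^ m * A q gg t ^ k := by
    intro t
    set w : ℝ≥0∞ := ENNReal.ofReal (1 + |t|) ^ (q / 2 - 1) with hw
    have h0 : 0 < 1 + |t| := by positivity
    have hw0 : w ≠ 0 := by
      rw [hw, ENNReal.ofReal_rpow_of_pos h0, Ne, ENNReal.ofReal_eq_zero, not_le]
      positivity
    have hwt : w ≠ ⊤ := by
      rw [hw, ENNReal.ofReal_rpow_of_pos h0]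
      exact ENNReal.ofReal_ne_top
    have h3 : ENNReal.ofReal ((1 + |t|) ^ (-(k * (q / 2 - 1)))) = (w ^ k)⁻¹ := by
      rw [hw, ENNReal.ofReal_rpow_of_pos h0, ← ENNReal.ofReal_pow (by positivity),
        ← ENNReal.ofReal_inv_of_pos (by positivity), ← Real.rpow_natCast, ← Real.rpow_mul h0.le,
        ← Real.rpow_neg h0.le]
      congr 2
      ring
    have h4 : (c : ℝ≥0∞) ≤ A q gg t * w := by
      refine (hl t).trans ?_
      gcongr
      exact setLIntegral_le_lintegral _ _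
    have h5 : (c : ℝ≥0∞) ^ k ≤ A q gg t ^ k * w ^ k := by
      rw [← mul_pow]
      exact pow_le_pow_left' h4 k
    rw [h3]
    calc (c : ℝ≥0∞) ^ k * (A q f t ^ m * (w ^ k)⁻¹)
        ≤ (A q gg t ^ k * w ^ k) * (A q f t ^ m * (w ^ k)⁻¹) := by gcongr
      _ = (w ^ k * (w ^ k)⁻¹) * (A q f t ^ m * A q gg t ^ k) := by ring
      _ = A q f t ^ m * A q gg t ^ k := by
          rw [ENNReal.mul_inv_cancel (pow_ne_zero _ hw0) (ENNReal.pow_ne_top hwt), one_mul]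
  have h3 : (c : ℝ≥0∞) ^ k * (∫⁻ t : ℝ, (A q f t) ^ m *
      ENNReal.ofReal ((1 + |t|) ^ (-(k * (q / 2 - 1))))) ≤ C := by
    rw [← lintegral_const_mul' _ _ hckt]
    exact (lintegral_mono h2).trans h1
  have h4 : (∫⁻ t : ℝ, (A q f t) ^ m * ENNReal.ofReal ((1 + |t|) ^ (-(k * (q / 2 - 1))))) ≤
      C / (c : ℝ≥0∞) ^ k := by
    rw [ENNReal.le_div_iff_mul_le (Or.inl hck0) (Or.inl hckt), mul_comm]
    exact h3
  refine h4.trans (le_of_eq ?_)
  rw [div_eq_mul_inv, ENNReal.coe_mul, ENNReal.coe_inv (pow_ne_zero _ hc.ne'), ENNReal.coe_pow]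

/-- **One dimension less.** -/
theorem loc_down {n : ℕ} {q τ : ℝ} (hq : 2 ≤ q) (h : Loc (n + 1) q τ) :
    Loc n q (τ + (q / 2 - 1)) := by
  have hq0 : 0 ≤ q := by linarith
  have he : 0 ≤ q / 2 - 1 := by linarith
  obtain ⟨C, hC⟩ := h
  obtain ⟨c, hc, K, hK, hl⟩ := low_gg hq
  set L : ℝ := 1 + 2 * K with hL
  have hL1 : 1 ≤ L := by linarith
  set D : ℝ≥0∞ := C * ENNReal.ofReal (L ^ τ * 2 ^ (q / 2 - 1)) / c with hD
  have hc0 : (c : ℝ≥0∞) ≠ 0 := by exact_mod_cast hc.ne'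
  have hDt : D ≠ ⊤ := ENNReal.div_ne_top (ENNReal.mul_ne_top ENNReal.coe_ne_top
    ENNReal.ofReal_ne_top) hc0
  refine ⟨D.toNNReal, fun f hf hf1 R hR => ?_⟩
  rw [ENNReal.coe_toNNReal hDt]
  have hR0 : 0 < R := by linarith
  have hLR : 1 ≤ L * R := by nlinarith
  have h1 := hC (ten f gg) (ten_meas hf gg_meas) (ten_le hf1 gg_le) (L * R) hLR
  have hfm := ((ext_meas hf).enorm).pow_const q
  have hgm := ((ext_meas gg_meas).enorm).pow_const q
  -- the slices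
  have h2 : ∀ t : ℝ, |t| ≤ R → c * (∫⁻ x in closedBall (0 : E n) R, ‖ext f (x, t)‖ₑ ^ q) ≤
      ENNReal.ofReal (2 * R) ^ (q / 2 - 1) *
        ∫⁻ x in closedBall (0 : E (n + 1)) (L * R), ‖ext (ten f gg) (x, t)‖ₑ ^ q := by
    intro t ht
    set B1 : Set (E n) := closedBall 0 R
    set B2 : Set (E 1) := closedBall 0 (K * (1 + |t|))
    have hm1 : Measurable fun x : E n => ‖ext f (x, t)‖ₑ ^ q :=
      hfm.comp (measurable_id.prodMk measurable_const)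
    have hm2 : Measurable fun x : E 1 => ‖ext gg (x, t)‖ₑ ^ q :=
      hgm.comp (measurable_id.prodMk measurable_const)
    have h3 : (∫⁻ x in B1, ‖ext f (x, t)‖ₑ ^ q) * (∫⁻ x in B2, ‖ext gg (x, t)‖ₑ ^ q) ≤
        ∫⁻ x in closedBall (0 : E (n + 1)) (L * R), ‖ext (ten f gg) (x, t)‖ₑ ^ q := by
      rw [← lintegral_prod_mul hm1.aemeasurable hm2.aemeasurable, Measure.prod_restrict,
        ← Measure.volume_eq_prod,
        ← (sp_mp n 1).setLIntegral_comp_preimage_emb (sp n 1).measurableEmbedding]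
      have h4 : sp n 1 ⁻¹' (B1 ×ˢ B2) ⊆ closedBall (0 : E (n + 1)) (L * R) := by
        intro x hx
        obtain ⟨hx1, hx2⟩ := hx
        rw [mem_closedBall_zero_iff] at hx1 hx2 ⊢
        have h5 : K * (1 + |t|) ≤ 2 * K * R := by nlinarith
        have h6 : ‖x‖ ^ 2 ≤ (‖(sp n 1 x).1‖ + ‖(sp n 1 x).2‖) ^ 2 := by
          rw [norm_sp]
          nlinarith [norm_nonneg (sp n 1 x).1, norm_nonneg (sp n 1 x).2]
        have h7 : ‖x‖ ≤ ‖(sp n 1 x).1‖ + ‖(sp n 1 x).2‖ :=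
          le_of_sq_le_sq h6 (by positivity)
        calc ‖x‖ ≤ R + 2 * K * R := by linarith
          _ = L * R := by rw [hL]; ring
      refine le_trans (le_of_eq ?_) (lintegral_mono_set h4)
      refine lintegral_congr fun x => ?_
      rw [ext_ten, enorm_mul, ENNReal.mul_rpow_of_nonneg _ _ hq0]
    calc c * (∫⁻ x in B1, ‖ext f (x, t)‖ₑ ^ q)
        ≤ ((∫⁻ x in B2, ‖ext gg (x, t)‖ₑ ^ q) * ENNReal.ofReal (1 + |t|) ^ (q / 2 - 1)) *
            (∫⁻ x in B1, ‖ext f (x, t)‖ₑ ^ q) := by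
          gcongr
          exact hl t
      _ = ENNReal.ofReal (1 + |t|) ^ (q / 2 - 1) * ((∫⁻ x in B1, ‖ext f (x, t)‖ₑ ^ q) *
            (∫⁻ x in B2, ‖ext gg (x, t)‖ₑ ^ q)) := by ring
      _ ≤ _ := by
          gcongr
          linarith
  -- integration in time
  have h3 : ∀ (m : ℕ) (g : E m → ℂ) (r : ℝ), Measurable g →
      (∫⁻ x in closedBall (0 : E m × ℝ) r, ‖ext g x‖ₑ ^ q) =
        ∫⁻ t in closedBall (0 : ℝ) r, ∫⁻ x in closedBall (0 : E m) r, ‖ext g (x, t)‖ₑ ^ q := by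
    intro m g r hg
    have h4 : closedBall (0 : E m × ℝ) r = closedBall (0 : E m) r ×ˢ closedBall (0 : ℝ) r := by
      rw [closedBall_prod_same]; rfl
    rw [h4, Measure.volume_eq_prod, ← Measure.prod_restrict, lintegral_prod_symm _
      (((ext_meas hg).enorm).pow_const q).aemeasurable]
  rw [h3 (n + 1) _ _ (ten_meas hf gg_meas)] at h1
  rw [h3 n f R hf]
  have h4 : (c : ℝ≥0∞) * (∫⁻ t in closedBall (0 : ℝ) R, ∫⁻ x in closedBall (0 : E n) R,
      ‖ext f (x, t)‖ₑ ^ q) ≤ ENNReal.ofReal (2 * R) ^ (q / 2 - 1) *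
        (C * ENNReal.ofReal ((L * R) ^ τ)) := by
    rw [← lintegral_const_mul' _ _ ENNReal.coe_ne_top]
    calc (∫⁻ t in closedBall (0 : ℝ) R, c * ∫⁻ x in closedBall (0 : E n) R, ‖ext f (x, t)‖ₑ ^ q)
        ≤ ∫⁻ t in closedBall (0 : ℝ) R, ENNReal.ofReal (2 * R) ^ (q / 2 - 1) *
            ∫⁻ x in closedBall (0 : E (n + 1)) (L * R), ‖ext (ten f gg) (x, t)‖ₑ ^ q := by
          refine setLIntegral_mono' measurableSet_closedBall fun t ht => h2 t ?_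
          rwa [mem_closedBall_zero_iff, Real.norm_eq_abs] at ht
      _ = ENNReal.ofReal (2 * R) ^ (q / 2 - 1) * ∫⁻ t in closedBall (0 : ℝ) R,
            ∫⁻ x in closedBall (0 : E (n + 1)) (L * R), ‖ext (ten f gg) (x, t)‖ₑ ^ q := by
          rw [lintegral_const_mul' _ _ (ENNReal.rpow_ne_top_of_nonneg he ENNReal.ofReal_ne_top)]
      _ ≤ ENNReal.ofReal (2 * R) ^ (q / 2 - 1) * ∫⁻ t in closedBall (0 : ℝ) (L * R),
            ∫⁻ x in closedBall (0 : E (n + 1)) (L * R), ‖ext (ten f gg) (x, t)‖ₑ ^ q := by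
          refine mul_le_mul' le_rfl (lintegral_mono_set (closedBall_subset_closedBall ?_))
          nlinarith
      _ ≤ _ := by gcongr
  have h5 : ENNReal.ofReal (2 * R) ^ (q / 2 - 1) * (C * ENNReal.ofReal ((L * R) ^ τ)) =
      C * ENNReal.ofReal (L ^ τ * 2 ^ (q / 2 - 1)) * ENNReal.ofReal (R ^ (τ + (q / 2 - 1))) := by
    rw [ENNReal.ofReal_rpow_of_pos (by positivity), mul_left_comm, mul_assoc (C : ℝ≥0∞),
      ← ENNReal.ofReal_mul (by positivity), ← ENNReal.ofReal_mul (by positivity)]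
    congr 2
    rw [Real.mul_rpow (by norm_num) hR0.le, Real.mul_rpow (by linarith) hR0.le,
      Real.rpow_add hR0]
    ring
  rw [h5] at h4
  rw [hD, ENNReal.div_eq_inv_mul, mul_assoc, ← ENNReal.div_eq_inv_mul,
    ENNReal.le_div_iff_mul_le (Or.inl hc0) (Or.inl ENNReal.coe_ne_top), mul_comm]
  exact h4

end Pool.Agent.H272.RD
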