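import Pool.Agent.H272.RD.Up
import Pool.Graph.R_seed8.TH277.HT.C

/-!
Consequences for the restriction conjecture.
-/

open MeasureTheory Set Filter Metric
open scoped ENNReal NNReal Topology

namespace Pool.Agent.H272.RD

open Pool.Agent.Helper184.PH

theorem loc_down_k {n : ℕ} {q : ℝ} (hq : 2 ≤ q) (k : ℕ) : ∀ {τ : ℝ}, Loc (n + k) q τ →
    Loc n q (τ + k * (q / 2 - 1)) := by
  induction k with
  | zero => intro τ h; simpa using h
  | succ k ih =>
    intro τ h
    have h1 : Loc (n + k) q (τ + (q / 2 - 1)) := loc_down hq h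
    have h2 := ih h1
    have e : τ + (q / 2 - 1) + k * (q / 2 - 1) = τ + ((k + 1 : ℕ) : ℝ) * (q / 2 - 1) := by
      push_cast; ring
    rwa [e] at h2

theorem loc_mono {n : ℕ} {q τ τ' : ℝ} (h : τ ≤ τ') (hL : Loc n q τ) : Loc n q τ' := by
  obtain ⟨C, hC⟩ := hL
  refine ⟨C, fun f hf hf1 R hR => (hC f hf hf1 R hR).trans ?_⟩
  gcongr

theorem loc_of_est {n : ℕ} {q : ℝ} (h : Estimate n q) : Loc n q 0 := by
  obtain ⟨C, hC⟩ := h
  refine ⟨C, fun f hf hf1 R hR => ?_⟩
  rw [Real.rpow_zero, ENNReal.ofReal_one, mul_one]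
  exact (setLIntegral_le_lintegral _ _).trans (hC f hf hf1)

/-- **Smaller exponents.** -/
theorem loc_q {n : ℕ} {p q τ : ℝ} (hp : 0 < p) (hpq : p ≤ q) (h : Loc n q τ) :
    Loc n p (((n : ℝ) + 1) * (1 - p / q) + τ * (p / q)) := by
  have hq : 0 < q := hp.trans_le hpq
  obtain ⟨C, hC⟩ := h
  set w : ℝ := p / q with hw
  have hw0 : 0 < w := by positivity
  have hw1 : w ≤ 1 := (div_le_one hq).2 hpq
  set v : ℝ≥0∞ := volume (ball (0 : E n × ℝ) 1) with hv
  have hvt : v ≠ ⊤ := measure_ball_lt_top.ne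
  set K : ℝ≥0∞ := (C : ℝ≥0∞) ^ w * v ^ (1 - w) with hK
  have hKt : K ≠ ⊤ := ENNReal.mul_ne_top (ENNReal.rpow_ne_top_of_nonneg hw0.le
    ENNReal.coe_ne_top) (ENNReal.rpow_ne_top_of_nonneg (by linarith) hvt)
  refine ⟨K.toNNReal, fun f hf hf1 R hR => ?_⟩
  rw [ENNReal.coe_toNNReal hKt]
  have hR0 : 0 < R := by linarith
  have hFm : Measurable fun x => ‖ext f x‖ₑ := (ext_meas hf).enorm
  have h1 := ENNReal.lintegral_mul_norm_pow_le (μ := volume.restrict (closedBall (0 : E n × ℝ) R))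
    (f := fun x => ‖ext f x‖ₑ ^ q) (g := fun _ => 1) (hFm.pow_const q).aemeasurable
    aemeasurable_const (p := w) (q := 1 - w) hw0.le (by linarith) (by ring)
  have h3 : ∀ x, (‖ext f x‖ₑ ^ q) ^ w = ‖ext f x‖ₑ ^ p := fun y => by
    rw [← ENNReal.rpow_mul]
    congr 1
    rw [hw]
    field_simp
  simp only [h3, ENNReal.one_rpow, mul_one, lintegral_const, one_mul,
    Measure.restrict_apply_univ] at h1
  refine h1.trans ?_
  have h4 : volume (closedBall (0 : E n × ℝ) R) = ENNReal.ofReal (R ^ ((n : ℝ) + 1)) * v := by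
    have := Pool.Agent.H222.ER.vol_BB n R.toNNReal
    rw [Real.coe_toNNReal R hR0.le] at this
    rw [show closedBall (0 : E n × ℝ) R = Pool.Agent.H222.ER.BB n R from rfl, this,
      ← ENNReal.ofReal_rpow_of_pos hR0]
    rfl
  rw [h4]
  calc (∫⁻ x in closedBall (0 : E n × ℝ) R, ‖ext f x‖ₑ ^ q) ^ w *
        (ENNReal.ofReal (R ^ ((n : ℝ) + 1)) * v) ^ (1 - w)
      ≤ (C * ENNReal.ofReal (R ^ τ)) ^ w * (ENNReal.ofReal (R ^ ((n : ℝ) + 1)) * v) ^ (1 - w) := by
        gcongr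
        exact hC f hf hf1 R hR
    _ = K * (ENNReal.ofReal (R ^ τ) ^ w * ENNReal.ofReal (R ^ ((n : ℝ) + 1)) ^ (1 - w)) := by
        rw [ENNReal.mul_rpow_of_nonneg _ _ hw0.le, ENNReal.mul_rpow_of_nonneg _ _ (by linarith), hK]
        ring
    _ = K * ENNReal.ofReal (R ^ (((n : ℝ) + 1) * (1 - w) + τ * w)) := by
        rw [ENNReal.ofReal_rpow_of_pos (by positivity), ENNReal.ofReal_rpow_of_pos (by positivity),
          ← ENNReal.ofReal_mul (by positivity), ← Real.rpow_mul hR0.le, ← Real.rpow_mul hR0.le,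
          ← Real.rpow_add hR0]
        congr 3
        ring

/-! ### Lower bounds -/

/-- the powers of the bump function -/
noncomputable def GG : (n : ℕ) → (E n → ℂ)
  | 0 => fun _ => 1
  | n + 1 => ten (n := n) (k := 1) (GG n) gg

theorem GG_meas (n : ℕ) : Measurable (GG n) := by
  induction n with
  | zero => exact measurable_const
  | succ m ih => exact ten_meas ih gg_meas

theorem GG_le (n : ℕ) : ∀ ξ, ‖GG n ξ‖ ≤ 1 := by
  induction n with
  | zero => intro ξ; simp [GG]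
  | succ m ih => exact ten_le ih gg_le

theorem A_GG {q : ℝ} (hq : 0 ≤ q) (n : ℕ) (t : ℝ) : A q (GG n) t = A q gg t ^ n := by
  induction n with
  | zero => rw [pow_zero]; exact A_one q 0 t
  | succ m ih =>
    have h : A q (GG (m + 1)) t = A q (GG m) t * A q gg t := A_ten (GG_meas m) gg_meas hq t
    rw [h, ih, pow_succ]

theorem low_GG {q : ℝ} (hq : 2 ≤ q) (n : ℕ) : ∃ c : ℝ≥0, 0 < c ∧ ∀ t : ℝ,
    c * ENNReal.ofReal ((1 + |t|) ^ (-(n * (q / 2 - 1)))) ≤ A q (GG n) t := by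
  have hq0 : 0 ≤ q := by linarith
  obtain ⟨c, hc, K, hK, hl⟩ := low_gg hq
  refine ⟨c ^ n, pow_pos hc n, fun t => ?_⟩
  rw [A_GG hq0]
  set w : ℝ≥0∞ := ENNReal.ofReal (1 + |t|) ^ (q / 2 - 1) with hw
  have h0 : 0 < 1 + |t| := by positivity
  have hw0 : w ≠ 0 := by
    rw [hw, ENNReal.ofReal_rpow_of_pos h0, Ne, ENNReal.ofReal_eq_zero, not_le]
    positivity
  have hwt : w ≠ ⊤ := by
    rw [hw, ENNReal.ofReal_rpow_of_pos h0]
    exact ENNReal.ofReal_ne_top
  have h3 : ENNReal.ofReal ((1 + |t|) ^ (-(n * (q / 2 - 1)))) = (w ^ n)⁻¹ := by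
    rw [hw, ENNReal.ofReal_rpow_of_pos h0, ← ENNReal.ofReal_pow (by positivity),
      ← ENNReal.ofReal_inv_of_pos (by positivity), ← Real.rpow_natCast, ← Real.rpow_mul h0.le,
      ← Real.rpow_neg h0.le]
    congr 2
    ring
  have h4 : (c : ℝ≥0∞) ≤ A q gg t * w := by
    refine (hl t).trans ?_
    gcongr
    exact setLIntegral_le_lintegral _ _
  rw [h3, ENNReal.coe_pow]
  calc (c : ℝ≥0∞) ^ n * (w ^ n)⁻¹ ≤ (A q gg t * w) ^ n * (w ^ n)⁻¹ := by gcongr
    _ = A q gg t ^ n * (w ^ n * (w ^ n)⁻¹) := by rw [mul_pow]; ring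
    _ = A q gg t ^ n := by
        rw [ENNReal.mul_inv_cancel (pow_ne_zero _ hw0) (ENNReal.pow_ne_top hwt), mul_one]

/-- the critical exponent -/
noncomputable def crit (n : ℕ) : ℝ := 2 * ((n : ℝ) + 1) / n

theorem not_int {a : ℝ} (ha : a ≤ 1) : ∫⁻ t : ℝ, ENNReal.ofReal ((1 + |t|) ^ (-a)) = ⊤ := by
  by_contra hne
  have h1 : ∫⁻ t in Ioi (1 : ℝ), ENNReal.ofReal (t⁻¹) ≠ ⊤ := by
    refine ne_top_of_le_ne_top (ENNReal.mul_ne_top (ENNReal.ofReal_ne_top (r := 2)) hne) ?_
    calc ∫⁻ t in Ioi (1 : ℝ), ENNReal.ofReal (t⁻¹)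
        ≤ ∫⁻ t in Ioi (1 : ℝ), ENNReal.ofReal 2 * ENNReal.ofReal ((1 + |t|) ^ (-a)) := by
          refine setLIntegral_mono' measurableSet_Ioi fun t ht => ?_
          have ht1 : (1 : ℝ) < t := ht
          rw [← ENNReal.ofReal_mul (by norm_num)]
          apply ENNReal.ofReal_le_ofReal
          have h2 : (1 + |t|) ^ (-(1 : ℝ)) ≤ (1 + |t|) ^ (-a) :=
            Real.rpow_le_rpow_of_exponent_le (by linarith [abs_nonneg t]) (by linarith)
          rw [Real.rpow_neg_one, abs_of_pos (by linarith)] at h2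
          rw [abs_of_pos (by linarith)]
          have h3 : t⁻¹ ≤ 2 * (1 + t)⁻¹ := by
            rw [← div_eq_mul_inv, le_div_iff₀ (by linarith), inv_mul_le_iff₀ (by linarith)]
            linarith
          linarith
      _ ≤ _ := by
          rw [lintegral_const_mul' _ _ ENNReal.ofReal_ne_top]
          gcongr
          exact Measure.restrict_le_self
  have h2 : IntegrableOn (fun t : ℝ => t⁻¹) (Ioi 1) := by
    refine ⟨(measurable_inv (G := ℝ)).aestronglyMeasurable, ?_⟩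
    rw [hasFiniteIntegral_iff_ofReal]
    · exact lt_top_iff_ne_top.2 h1
    · refine (ae_restrict_iff' measurableSet_Ioi).2 (Eventually.of_forall fun t ht => ?_)
      have : (1 : ℝ) < t := ht
      positivity
  exact not_integrableOn_Ioi_inv h2

/-- the estimate fails up to the critical exponent -/
theorem est_crit {n : ℕ} (hn : 1 ≤ n) {q : ℝ} (hq : 2 ≤ q) (h : Estimate n q) : crit n < q := by
  by_contra hc
  rw [not_lt] at hc
  have hn0 : (0 : ℝ) < n := by exact_mod_cast hn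
  obtain ⟨C, hC⟩ := h
  obtain ⟨c, hc0, hl⟩ := low_GG hq n
  have h1 := hC _ (GG_meas n) (GG_le n)
  rw [total (GG_meas n)] at h1
  have h2 : (c : ℝ≥0∞) * ∫⁻ t : ℝ, ENNReal.ofReal ((1 + |t|) ^ (-(n * (q / 2 - 1)))) ≤ C := by
    rw [← lintegral_const_mul' _ _ ENNReal.coe_ne_top]
    exact (lintegral_mono hl).trans h1
  rw [not_int, ENNReal.mul_top (by exact_mod_cast hc0.ne')] at h2
  · exact absurd h2 (not_le.2 ENNReal.coe_lt_top)
  · unfold crit at hc
    rw [le_div_iff₀ hn0] at hc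
    linarith

/-- the losses are not negative -/
theorem loc_nonneg {n : ℕ} {q τ : ℝ} (hq : 2 ≤ q) (h : Loc n q τ) : 0 ≤ τ := by
  by_contra hτ
  rw [not_le] at hτ
  obtain ⟨C, hC⟩ := h
  obtain ⟨c, hc0, hl⟩ := low_GG hq n
  have h0 : ∀ R : ℝ, 1 ≤ R → (∫⁻ x in closedBall (0 : E n × ℝ) R, ‖ext (GG n) x‖ₑ ^ q) = 0 := by
    intro R hR
    have h1 : ∀ S : ℝ, R ≤ S → (∫⁻ x in closedBall (0 : E n × ℝ) R, ‖ext (GG n) x‖ₑ ^ q) ≤
        C * ENNReal.ofReal (S ^ τ) := fun S hS =>
      (lintegral_mono_set (closedBall_subset_closedBall hS)).trans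
        (hC _ (GG_meas n) (GG_le n) S (hR.trans hS))
    have h2 : Tendsto (fun S : ℝ => (C : ℝ≥0∞) * ENNReal.ofReal (S ^ τ)) atTop (𝓝 (C * 0)) := by
      refine ENNReal.Tendsto.const_mul ?_ (Or.inr ENNReal.coe_ne_top)
      have h3 : Tendsto (fun S : ℝ => S ^ τ) atTop (𝓝 0) := by
        have := tendsto_rpow_neg_atTop (y := -τ) (by linarith)
        simpa using this
      have h4 := (ENNReal.continuous_ofReal.tendsto 0).comp h3
      simpa [Function.comp_def] using h4
    rw [mul_zero] at h2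
    have h3 := ge_of_tendsto h2 (eventually_atTop.2 ⟨R, h1⟩)
    exact le_antisymm h3 bot_le
  have h1 : (∫⁻ x, ‖ext (GG n) x‖ₑ ^ q) = 0 := by
    have h2 : (univ : Set (E n × ℝ)) = ⋃ m : ℕ, closedBall 0 ((m : ℝ) + 1) := by
      symm
      rw [eq_univ_iff_forall]
      intro x
      obtain ⟨m, hm⟩ := exists_nat_ge ‖x‖
      exact mem_iUnion.2 ⟨m, mem_closedBall_zero_iff.2 (by linarith)⟩
    rw [← setLIntegral_univ, h2]
    refine le_antisymm ((lintegral_iUnion_le _ _).trans ?_) bot_le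
    simp only [nonpos_iff_eq_zero, ENNReal.tsum_eq_zero]
    intro m
    exact h0 _ (by linarith [(Nat.cast_nonneg m : (0 : ℝ) ≤ m)])
  rw [total (GG_meas n), lintegral_eq_zero_iff (A_meas (GG_meas n) q)] at h1
  have h2 : ∀ t : ℝ, A q (GG n) t ≠ 0 := by
    intro t h3
    have h4 := hl t
    rw [h3] at h4
    have h5 : (c : ℝ≥0∞) * ENNReal.ofReal ((1 + |t|) ^ (-(n * (q / 2 - 1)))) ≠ 0 := by
      refine mul_ne_zero (by exact_mod_cast hc0.ne') ?_
      rw [Ne, ENNReal.ofReal_eq_zero, not_le]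
      positivity
    exact h5 (le_antisymm h4 bot_le)
  have h3 : ∀ᵐ _t : ℝ, False := h1.mono fun t ht => h2 t ht
  rw [ae_iff] at h3
  simp at h3

/-- the lower bound for the losses -/
theorem loc_lower {n : ℕ} {q τ : ℝ} (hq : 2 ≤ q) (h : Loc n q τ) :
    (n : ℝ) + 1 - q * n / 2 ≤ τ := by
  have h0 : ∀ (k : ℕ) {σ : ℝ}, Loc (0 + k) q σ → 1 ≤ σ + k * (q / 2 - 1) := by
    intro k σ hσ
    have h1 := loc_down_k hq k hσ
    by_contra hlt
    rw [not_le] at hlt
    set s : ℝ := σ + k * (q / 2 - 1) with hs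
    obtain ⟨C, hC⟩ := h1
    have h2 : ∀ R : ℝ, 1 ≤ R → ENNReal.ofReal (2 * R) ≤ C * ENNReal.ofReal (R ^ s) := by
      intro R hR
      refine le_trans (le_of_eq ?_) (hC (fun _ => 1) measurable_const (fun _ => by simp) R hR)
      have h3 : ∀ x : E 0 × ℝ, ext (fun _ => (1 : ℂ)) x = 1 := by
        rintro ⟨x, t⟩
        have h4 : cube 0 = univ := by
          ext ξ
          simp only [mem_univ, iff_true]
          intro i
          exact i.elim0
        have hv : (volume : Measure (E 0)) = Measure.dirac 0 := volume_euclideanSpace_eq_dirac _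
        unfold ext
        rw [h4, Measure.restrict_univ, hv, integral_dirac]
        unfold KP
        have h5 : x = 0 := Subsingleton.elim _ _
        simp [h5]
      simp only [h3, enorm_one, ENNReal.one_rpow, lintegral_const, one_mul,
        Measure.restrict_apply_univ]
      have h4 : closedBall (0 : E 0 × ℝ) R = closedBall (0 : E 0) R ×ˢ closedBall (0 : ℝ) R := by
        rw [closedBall_prod_same]; rfl
      rw [h4, Measure.volume_eq_prod, Measure.prod_prod, Real.volume_closedBall]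
      have h5 : closedBall (0 : E 0) R = univ := by
        ext x
        simp only [mem_univ, iff_true, mem_closedBall_zero_iff]
        rw [Subsingleton.elim x 0, norm_zero]
        linarith
      have hv : (volume : Measure (E 0)) = Measure.dirac 0 := volume_euclideanSpace_eq_dirac _
      rw [h5, hv, Measure.dirac_apply_of_mem (mem_univ _), one_mul]
    have h3 : ∀ R : ℝ, 1 ≤ R → 2 * R ^ (1 - s) ≤ C := by
      intro R hR
      have hR0 : 0 < R := by linarith
      have h4 := h2 R hR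
      rw [← ENNReal.ofReal_coe_nnreal, ← ENNReal.ofReal_mul C.coe_nonneg,
        ENNReal.ofReal_le_ofReal_iff (by positivity)] at h4
      rw [Real.rpow_sub hR0, Real.rpow_one, ← mul_div_assoc, div_le_iff₀ (by positivity)]
      exact h4
    have h4 : Tendsto (fun R : ℝ => 2 * R ^ (1 - s)) atTop atTop :=
      (tendsto_rpow_atTop (by linarith)).const_mul_atTop (by norm_num)
    obtain ⟨R, hR1, hR2⟩ := ((h4.eventually (eventually_gt_atTop (C : ℝ))).and
      (eventually_ge_atTop (1 : ℝ))).exists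
    exact absurd (h3 R hR2) (not_le.2 hR1)
  have h1 : Loc (0 + n) q τ := by rwa [Nat.zero_add]
  have h2 := h0 n h1
  linarith

/-! ### The restriction conjecture -/

/-- all exponents of the conjecture -/
def Q1At (n : ℕ) : Prop := ∀ q : ℝ, crit n < q → Estimate n q

/-- the sharp local estimate, up to `R^ε` -/
def Sharp (n : ℕ) (q : ℝ) : Prop :=
  ∀ ε : ℝ, 0 < ε → Loc n q (max 0 ((n : ℝ) + 1 - q * n / 2) + ε)

theorem crit_ge {n : ℕ} (hn : 1 ≤ n) : 2 ≤ crit n := by
  unfold crit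
  have h : (0 : ℝ) < n := by exact_mod_cast hn
  rw [le_div_iff₀ h]
  linarith

theorem q1_iff {n : ℕ} (hn : 1 ≤ n) : Q1At n ↔ ∀ ε : ℝ, 0 < ε → Loc n (crit n) ε := by
  have h0 : 0 < crit n := by linarith [crit_ge hn]
  constructor
  · intro h ε hε
    exact Pool.Agent.H222.ER.Est_of_GE h0 (fun s hs => h s hs) hε
  · intro h q hq
    exact Pool.Agent.H222.ER.GE_of_eps hn (crit_ge hn) (fun ε hε => h ε hε) hq

theorem below {n : ℕ} (hn : 1 ≤ n) {q : ℝ} (h : q ≤ crit n) : 0 ≤ (n : ℝ) + 1 - q * n / 2 := by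
  have hn0 : (0 : ℝ) < n := by exact_mod_cast hn
  unfold crit at h
  rw [le_div_iff₀ hn0] at h
  linarith

theorem above {n : ℕ} (hn : 1 ≤ n) {q : ℝ} (h : crit n ≤ q) : (n : ℝ) + 1 - q * n / 2 ≤ 0 := by
  have hn0 : (0 : ℝ) < n := by exact_mod_cast hn
  unfold crit at h
  rw [div_le_iff₀ hn0] at h
  linarith

theorem sharp_down {n k : ℕ} (hn : 1 ≤ n) {q : ℝ} (hq : 2 ≤ q) (hc : q ≤ crit (n + k))
    (h : Sharp (n + k) q) : Sharp n q := by
  intro ε hε
  have h1 := loc_down_k hq k (h ε hε)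
  rw [max_eq_right (below (by omega) hc)] at h1
  refine loc_mono ?_ h1
  push_cast
  have : (n : ℝ) + 1 - q * n / 2 ≤ max 0 ((n : ℝ) + 1 - q * n / 2) := le_max_right _ _
  linarith

theorem crit_anti {n k : ℕ} (hn : 1 ≤ n) : crit (n + k) ≤ crit n := by
  have hn0 : (0 : ℝ) < n := by exact_mod_cast hn
  unfold crit
  push_cast
  have hk : (0 : ℝ) ≤ k := Nat.cast_nonneg k
  rw [div_le_div_iff₀ (by positivity) hn0]
  nlinarith

theorem sharp_up {n k : ℕ} (hn : 1 ≤ n) {q : ℝ} (hc : crit n ≤ q)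
    (h : Sharp n q) : Sharp (n + k) q := by
  have hq : 2 ≤ q := (crit_ge hn).trans hc
  intro ε hε
  have h1 := h ε hε
  rw [max_eq_left (above hn hc)] at h1
  rw [max_eq_left (above (by omega) ((crit_anti hn).trans hc))]
  exact loc_up hq h1

theorem q1_sharp {n : ℕ} (hn : 1 ≤ n) : Q1At n ↔ ∀ q : ℝ, 2 ≤ q → Sharp n q := by
  have hn0 : (0 : ℝ) < n := by exact_mod_cast hn
  have hc2 := crit_ge hn
  constructor
  · intro h q hq ε hε
    rcases le_or_gt q (crit n) with hc | hc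
    · have h1 := (q1_iff hn).1 h ε hε
      have h2 := loc_q (by linarith : 0 < q) hc h1
      rw [max_eq_right (below hn hc)]
      refine loc_mono ?_ h2
      have e1 : ((n : ℝ) + 1) * (1 - q / crit n) = (n : ℝ) + 1 - q * n / 2 := by
        unfold crit
        field_simp
      have e2 : q / crit n ≤ 1 := (div_le_one (by linarith)).2 hc
      rw [e1]
      nlinarith
    · rw [max_eq_left (above hn hc.le)]
      exact loc_mono (by linarith) (loc_of_est (h q hc))
  · intro h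
    rw [q1_iff hn]
    intro ε hε
    have h1 := h (crit n) hc2 ε hε
    rw [max_eq_left (above hn le_rfl), zero_add] at h1
    exact h1

theorem q1_down {n k : ℕ} (hn : 1 ≤ n) {q : ℝ} (hq : 2 ≤ q) (hc : q ≤ crit (n + k))
    (h : Q1At (n + k)) : Sharp n q :=
  sharp_down hn hq hc ((q1_sharp (by omega)).1 h q hq)

/-- the conjecture holds for curves in the plane -/
theorem q1_one : Q1At 1 := by
  intro q hq
  have hc : crit 1 = 4 := by unfold crit; norm_num
  rw [hc] at hq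
  obtain ⟨C, hC⟩ := Pool.Agent.TH277.HT.zyg (q / 2) (by linarith)
  refine ⟨C, fun f hf hf1 => ?_⟩
  set a : ℝ → ℂ := fun s => f (u1.symm s) with ha
  have ham : Measurable a := hf.comp u1.symm.measurable
  have hadm : Pool.Agent.TH277.HT.Adm a := ⟨ham.stronglyMeasurable, fun s => hf1 _⟩
  have h1 := hC ℂ a hadm
  have h2 : ∀ (x : E 1) (t : ℝ), ext f (x, t) = Pool.Agent.TH277.HT.E1 a (u1 x) t := by
    intro x t
    rw [Pool.Agent.TH277.HT.E1_eq, ext_ind, ← u1_mp.integral_comp u1.measurableEmbedding]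
    refine integral_congr_ae (Eventually.of_forall fun ξ => ?_)
    beta_reduce
    have hξ' : (u1 ξ ∈ Icc (-1 : ℝ) 1) ↔ ξ ∈ cube 1 := by
      rw [u1_apply, mem_Icc, ← abs_le]
      constructor
      · intro h i
        rw [Subsingleton.elim i 0]
        exact h
      · exact fun h => h 0
    unfold Pool.Agent.TH277.HT.tr
    by_cases hξ : ξ ∈ cube 1
    · rw [indicator_of_mem hξ, indicator_of_mem (hξ'.2 hξ), ha]
      beta_reduce
      rw [MeasurableEquiv.symm_apply_apply, smul_eq_mul, mul_comm]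
      congr 1
      unfold KP Pool.Agent.TH277.HT.ch
      have e1 : inner ℝ ξ x = ξ 0 * x 0 := by
        simp [PiLp.inner_apply, mul_comm]
      have e2 : ‖ξ‖ ^ 2 = ξ 0 ^ 2 := by
        rw [EuclideanSpace.norm_sq_eq]
        simp
      rw [e1, e2, u1_apply, u1_apply]
      congr 1
      push_cast
      ring
    · rw [indicator_of_notMem hξ, indicator_of_notMem (fun h => hξ (hξ'.1 h)), smul_zero]
  refine le_trans (le_of_eq ?_) h1
  have h3 : MeasurePreserving (Prod.map u1 (id : ℝ → ℝ)) := u1_mp.prod (MeasurePreserving.id _)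
  have h4 : MeasurableEmbedding (Prod.map u1 (id : ℝ → ℝ)) :=
    (u1.prodCongr (MeasurableEquiv.refl ℝ)).measurableEmbedding
  rw [← h3.lintegral_comp_emb h4]
  refine lintegral_congr fun p => ?_
  obtain ⟨x, t⟩ := p
  rw [h2, Prod.map_apply]
  show ‖Pool.Agent.TH277.HT.E1 a (u1 x) t‖ₑ ^ q =
    ENNReal.ofReal ((‖Pool.Agent.TH277.HT.E1 a (u1 x) t‖ ^ 2) ^ (q / 2))
  rw [← ofReal_norm, ENNReal.ofReal_rpow_of_nonneg (norm_nonneg _) (by linarith)]
  congr 1
  rw [← Real.rpow_natCast, ← Real.rpow_mul (norm_nonneg _)]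
  congr 1
  push_cast
  ring

end Pool.Agent.H272.RD
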