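import Pool.Agent.H272.RD.Bump

/-!
The lower bound for the time slices of the extension of the bump function.
-/

open MeasureTheory Set Filter Metric
open scoped ENNReal NNReal Topology ContDiff SchwartzMap FourierTransform

namespace Pool.Agent.H272.RD

open Pool.Agent.Helper184.PH

theorem F_cont (t : ℝ) : Continuous (𝓕 (hh t)) := by
  have := (𝓕 (hS t)).continuous
  rwa [SchwartzMap.fourier_coe, hS_coe] at this

theorem F_sq_int (t : ℝ) : Integrable fun y => ‖𝓕 (hh t) y‖ ^ 2 := by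
  have h4 := (𝓕 (hS t)).memLp 2 (μ := volume)
  rw [SchwartzMap.fourier_coe, hS_coe] at h4
  exact h4.integrable_norm_pow (by norm_num)

theorem enorm_sq_eq (z : ℂ) : ‖z‖ₑ ^ (2 : ℝ) = ENNReal.ofReal (‖z‖ ^ 2) := by
  rw [← ofReal_norm, ENNReal.ofReal_rpow_of_nonneg (norm_nonneg _) (by norm_num)]
  norm_num

theorem mass' (t : ℝ) : ∫⁻ y, ‖𝓕 (hh t) y‖ₑ ^ (2 : ℝ) = ENNReal.ofReal c1 := by
  simp only [enorm_sq_eq]
  rw [← ofReal_integral_eq_lintegral_ofReal (F_sq_int t)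
    (Eventually.of_forall fun y => by positivity), mass]

theorem low2 : ∃ K : ℝ, 0 < K ∧ ∀ t : ℝ, ENNReal.ofReal (c1 / 2) ≤
    ∫⁻ y in closedBall (0 : ℝ) (K * (1 + |t|)), ‖𝓕 (hh t) y‖ₑ ^ (2 : ℝ) := by
  obtain ⟨B, hB, hb⟩ := moment
  have hc := c1_pos
  set K : ℝ := B * Real.sqrt (2 / c1) with hK
  have hK0 : 0 < K := by positivity
  have hK2 : K ^ 2 = B ^ 2 * (2 / c1) := by
    rw [hK, mul_pow, Real.sq_sqrt (by positivity)]
  refine ⟨K, hK0, fun t => ?_⟩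
  set Y : ℝ := K * (1 + |t|) with hY
  have hY0 : 0 < Y := by positivity
  have hm : Measurable fun y => ‖𝓕 (hh t) y‖ₑ ^ (2 : ℝ) := by
    have := (F_cont t).measurable
    fun_prop
  have h1 : ENNReal.ofReal c1 = (∫⁻ y in closedBall (0 : ℝ) Y, ‖𝓕 (hh t) y‖ₑ ^ (2 : ℝ)) +
      ∫⁻ y in (closedBall (0 : ℝ) Y)ᶜ, ‖𝓕 (hh t) y‖ₑ ^ (2 : ℝ) := by
    rw [← mass' t, lintegral_add_compl _ measurableSet_closedBall]
  have h2 : ∫⁻ y in (closedBall (0 : ℝ) Y)ᶜ, ‖𝓕 (hh t) y‖ₑ ^ (2 : ℝ) ≤ ENNReal.ofReal (c1 / 2) := by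
    calc ∫⁻ y in (closedBall (0 : ℝ) Y)ᶜ, ‖𝓕 (hh t) y‖ₑ ^ (2 : ℝ)
        ≤ ∫⁻ y in (closedBall (0 : ℝ) Y)ᶜ,
            ENNReal.ofReal (Y ^ 2)⁻¹ * ENNReal.ofReal (y ^ 2 * ‖𝓕 (hh t) y‖ ^ 2) := by
          refine setLIntegral_mono' measurableSet_closedBall.compl fun y hy => ?_
          rw [enorm_sq_eq, ← ENNReal.ofReal_mul (by positivity)]
          apply ENNReal.ofReal_le_ofReal
          rw [mem_compl_iff, mem_closedBall, Real.dist_eq, sub_zero, not_le] at hy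
          have h3 : Y ^ 2 ≤ y ^ 2 := by
            rw [← sq_abs y]
            exact pow_le_pow_left₀ hY0.le hy.le 2
          rw [inv_mul_eq_div, le_div_iff₀ (by positivity), mul_comm]
          gcongr
      _ ≤ ENNReal.ofReal (Y ^ 2)⁻¹ * ∫⁻ y, ENNReal.ofReal (y ^ 2 * ‖𝓕 (hh t) y‖ ^ 2) := by
          rw [lintegral_const_mul' _ _ ENNReal.ofReal_ne_top]
          gcongr
          exact Measure.restrict_le_self
      _ ≤ ENNReal.ofReal (Y ^ 2)⁻¹ * ENNReal.ofReal ((B * (1 + |t|)) ^ 2) := by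
          gcongr
          exact hb t
      _ ≤ ENNReal.ofReal (c1 / 2) := by
          rw [← ENNReal.ofReal_mul (by positivity)]
          apply ENNReal.ofReal_le_ofReal
          rw [hY, mul_pow K, hK2, mul_pow]
          have h4 : 0 < (1 + |t|) := by positivity
          apply le_of_eq
          field_simp
  have h3 : ENNReal.ofReal c1 = ENNReal.ofReal (c1 / 2) + ENNReal.ofReal (c1 / 2) := by
    rw [← ENNReal.ofReal_add (by positivity) (by positivity)]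
    congr 1; ring
  rw [h3] at h1
  have h4 : ENNReal.ofReal (c1 / 2) + ENNReal.ofReal (c1 / 2) ≤
      (∫⁻ y in closedBall (0 : ℝ) Y, ‖𝓕 (hh t) y‖ₑ ^ (2 : ℝ)) + ENNReal.ofReal (c1 / 2) := by
    rw [h1]
    gcongr
  exact (ENNReal.add_le_add_iff_right ENNReal.ofReal_ne_top).1 h4

/-- **The lower bound.** -/
theorem low {q : ℝ} (hq : 2 ≤ q) : ∃ c : ℝ≥0, 0 < c ∧ ∃ K : ℝ, 0 < K ∧ ∀ t : ℝ, (c : ℝ≥0∞) ≤
    (∫⁻ y in closedBall (0 : ℝ) (K * (1 + |t|)), ‖𝓕 (hh t) y‖ₑ ^ q) *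
      ENNReal.ofReal (1 + |t|) ^ (q / 2 - 1) := by
  obtain ⟨K, hK, hk⟩ := low2
  have hc := c1_pos
  have hq0 : 0 < q := by linarith
  have he : 0 ≤ q / 2 - 1 := by linarith
  set a : ℝ≥0∞ := ENNReal.ofReal (c1 / 2) with ha
  have ha0 : a ≠ 0 := by
    rw [ha, Ne, ENNReal.ofReal_eq_zero, not_le]; positivity
  have hat : a ≠ ⊤ := ENNReal.ofReal_ne_top
  set b : ℝ≥0∞ := ENNReal.ofReal (2 * K) with hb
  have hb0 : b ≠ 0 := by
    rw [hb, Ne, ENNReal.ofReal_eq_zero, not_le]; positivity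
  have hbt : b ≠ ⊤ := ENNReal.ofReal_ne_top
  have hbe0 : b ^ (q / 2 - 1) ≠ 0 := by
    simp [ENNReal.rpow_eq_zero_iff, hb0, hbt]
  have hbet : b ^ (q / 2 - 1) ≠ ⊤ := ENNReal.rpow_ne_top_of_nonneg he hbt
  have haq0 : a ^ (q / 2) ≠ 0 := by
    simp [ENNReal.rpow_eq_zero_iff, ha0, hat]
  have haqt : a ^ (q / 2) ≠ ⊤ := ENNReal.rpow_ne_top_of_nonneg (by positivity) hat
  have hct : a ^ (q / 2) / b ^ (q / 2 - 1) ≠ ⊤ := ENNReal.div_ne_top haqt hbe0
  refine ⟨(a ^ (q / 2) / b ^ (q / 2 - 1)).toNNReal, ?_, K, hK, fun t => ?_⟩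
  · exact ENNReal.toNNReal_pos (ENNReal.div_ne_zero.2 ⟨haq0, hbet⟩) hct
  rw [ENNReal.coe_toNNReal hct]
  set Y : ℝ := K * (1 + |t|) with hY
  have hY0 : 0 < Y := by positivity
  set J : ℝ≥0∞ := ∫⁻ y in closedBall (0 : ℝ) Y, ‖𝓕 (hh t) y‖ₑ ^ q with hJ
  have hm : Measurable fun y => ‖𝓕 (hh t) y‖ₑ ^ q := by
    have := (F_cont t).measurable
    fun_prop
  have h1 := hk t
  rw [← hY] at h1
  have h2 := ENNReal.lintegral_mul_norm_pow_le (μ := volume.restrict (closedBall (0 : ℝ) Y))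
    (f := fun y => ‖𝓕 (hh t) y‖ₑ ^ q) (g := fun _ => 1) hm.aemeasurable aemeasurable_const
    (p := 2 / q) (q := 1 - 2 / q) (by positivity)
    (by rw [sub_nonneg, div_le_one hq0]; exact hq) (by ring)
  have h3 : ∀ y, (‖𝓕 (hh t) y‖ₑ ^ q) ^ (2 / q) = ‖𝓕 (hh t) y‖ₑ ^ (2 : ℝ) := fun y => by
    rw [← ENNReal.rpow_mul]
    congr 1
    field_simp
  simp only [h3, ENNReal.one_rpow, mul_one, lintegral_const, one_mul,
    Measure.restrict_apply_univ, Real.volume_closedBall] at h2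
  rw [← hJ] at h2
  have h4 : a ≤ J ^ (2 / q) * (ENNReal.ofReal (2 * Y)) ^ (1 - 2 / q) := h1.trans h2
  have h5 : a ^ (q / 2) ≤ J * (ENNReal.ofReal (2 * Y)) ^ (q / 2 - 1) := by
    calc a ^ (q / 2) ≤ (J ^ (2 / q) * (ENNReal.ofReal (2 * Y)) ^ (1 - 2 / q)) ^ (q / 2) := by
          gcongr
      _ = J * (ENNReal.ofReal (2 * Y)) ^ (q / 2 - 1) := by
          rw [ENNReal.mul_rpow_of_nonneg _ _ (by positivity), ← ENNReal.rpow_mul,
            ← ENNReal.rpow_mul]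
          congr 1
          · rw [show 2 / q * (q / 2) = 1 by field_simp, ENNReal.rpow_one]
          · congr 1
            field_simp
  have h6 : ENNReal.ofReal (2 * Y) = b * ENNReal.ofReal (1 + |t|) := by
    rw [hb, ← ENNReal.ofReal_mul (by positivity), hY]
    congr 1
    ring
  rw [h6, ENNReal.mul_rpow_of_nonneg _ _ he] at h5
  rw [ENNReal.div_le_iff_le_mul (Or.inl hbe0) (Or.inl hbet)]
  calc a ^ (q / 2) ≤ J * (b ^ (q / 2 - 1) * ENNReal.ofReal (1 + |t|) ^ (q / 2 - 1)) := h5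
    _ = _ := by ring

/-! ### The bump function on `ℝ^1` -/

/-- `ℝ^1` and the line -/
noncomputable def u1 : E 1 ≃ᵐ ℝ :=
  (MeasurableEquiv.toLp 2 (Fin 1 → ℝ)).symm.trans (MeasurableEquiv.funUnique (Fin 1) ℝ)

theorem u1_mp : MeasurePreserving u1 := by
  unfold u1
  exact (EuclideanSpace.volume_preserving_symm_measurableEquiv_toLp _).trans
    (volume_preserving_funUnique (Fin 1) ℝ)

theorem u1_apply (ξ : E 1) : u1 ξ = ξ 0 := rfl

/-- the bump function on `ℝ^1` -/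
noncomputable def gg (ξ : E 1) : ℂ := (bmp (ξ 0) : ℂ)

theorem gg_meas : Measurable gg := by
  unfold gg
  have h : Continuous fun ξ : E 1 => ((bmp (ξ 0) : ℝ) : ℂ) :=
    Complex.continuous_ofReal.comp (bmp.continuous.comp (by fun_prop))
  exact h.measurable

theorem gg_le (ξ : E 1) : ‖gg ξ‖ ≤ 1 := by
  unfold gg
  rw [Complex.norm_real, Real.norm_eq_abs, abs_of_nonneg bmp.nonneg]
  exact bmp.le_one

theorem ext_gg (x : E 1) (t : ℝ) : ext gg (x, t) = 𝓕 (hh t) (-x 0) := by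
  rw [ext_ind, Real.fourier_real_eq_integral_exp_smul, ← u1_mp.integral_comp u1.measurableEmbedding]
  refine integral_congr_ae (Eventually.of_forall fun ξ => ?_)
  beta_reduce
  rw [u1_apply]
  by_cases hξ : ξ ∈ cube 1
  · rw [indicator_of_mem hξ]
    unfold gg hh KP
    have e1 : inner ℝ ξ x = ξ 0 * x 0 := by
      simp [PiLp.inner_apply, mul_comm]
    have e2 : ‖ξ‖ ^ 2 = ξ 0 ^ 2 := by
      rw [EuclideanSpace.norm_sq_eq]
      simp
    rw [e1, e2, smul_eq_mul, mul_left_comm, ← Complex.exp_add]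
    congr 2
    push_cast
    ring
  · rw [indicator_of_notMem hξ]
    have h1 : 1 ≤ |ξ 0| := by
      by_contra h
      refine hξ fun i => ?_
      rw [Subsingleton.elim i 0]
      exact (not_le.1 h).le
    rw [hh_zero h1, smul_zero]

/-- lower bound for the time slices -/
theorem low_gg {q : ℝ} (hq : 2 ≤ q) : ∃ c : ℝ≥0, 0 < c ∧ ∃ K : ℝ, 0 < K ∧ ∀ t : ℝ, (c : ℝ≥0∞) ≤
    (∫⁻ x in closedBall (0 : E 1) (K * (1 + |t|)), ‖ext gg (x, t)‖ₑ ^ q) *
      ENNReal.ofReal (1 + |t|) ^ (q / 2 - 1) := by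
  obtain ⟨c, hc, K, hK, h⟩ := low hq
  refine ⟨c, hc, K, hK, fun t => (h t).trans (le_of_eq ?_)⟩
  congr 1
  have h1 : closedBall (0 : E 1) (K * (1 + |t|)) =
      u1 ⁻¹' (closedBall (0 : ℝ) (K * (1 + |t|))) := by
    ext x
    rw [mem_preimage, mem_closedBall_zero_iff, mem_closedBall_zero_iff, u1_apply,
      EuclideanSpace.norm_eq]
    simp [Real.sqrt_sq_eq_abs]
  rw [h1]
  have h2 := u1_mp.setLIntegral_comp_preimage_emb u1.measurableEmbedding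
    (fun y => ‖𝓕 (hh t) (-y)‖ₑ ^ q) (closedBall (0 : ℝ) (K * (1 + |t|)))
  have h3 : ∀ x : E 1, ‖ext gg (x, t)‖ₑ ^ q = ‖𝓕 (hh t) (-u1 x)‖ₑ ^ q := fun x => by
    rw [ext_gg, u1_apply]
  simp only [h3]
  rw [h2]
  have h4 : MeasurePreserving (fun y : ℝ => -y) := Measure.measurePreserving_neg volume
  have h5 := h4.setLIntegral_comp_preimage_emb (MeasurableEquiv.neg ℝ).measurableEmbedding
    (fun y => ‖𝓕 (hh t) y‖ₑ ^ q) (closedBall (0 : ℝ) (K * (1 + |t|)))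
  rw [← h5]
  congr 2
  ext y
  simp

end Pool.Agent.H272.RD
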