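import Pool.Agent.H272.RD.Descent
import Pool.Graph.R_seed8.H153R4.Pl

/-!
Plancherel's theorem in some of the variables.
-/

open MeasureTheory Set Filter Metric
open scoped ENNReal NNReal Topology FourierTransform

namespace Pool.Agent.H272.RD

open Pool.Agent.Helper184.PH

variable {n k : ℕ}

/-- slices of a function -/
noncomputable def sl (F : E (n + k) → ℂ) (η : E k) (ξ : E n) : ℂ := F ((sp n k).symm (ξ, η))

theorem sl_meas {F : E (n + k) → ℂ} (hF : Measurable F) (η : E k) : Measurable (sl F η) := by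
  unfold sl
  exact hF.comp ((sp n k).symm.measurable.comp (measurable_id.prodMk measurable_const))

theorem sl_le {F : E (n + k) → ℂ} (hF : ∀ ξ, ‖F ξ‖ ≤ 1) (η : E k) (ξ : E n) : ‖sl F η ξ‖ ≤ 1 :=
  hF _

/-- the Fourier transform of a slice in physical space -/
noncomputable def ph (F : E (n + k) → ℂ) (x : E n) (t : ℝ) (η : E k) : ℂ :=
  (cube k).indicator (fun η => KP η (0, t) * ext (sl F η) (x, t)) η

theorem sl_joint {F : E (n + k) → ℂ} (hF : Measurable F) :
    Measurable fun p : E k × (E n × ℝ) => ext (sl F p.1) p.2 := by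
  have h : StronglyMeasurable fun p : (E k × (E n × ℝ)) × E n =>
      F ((sp n k).symm (p.2, p.1.1)) * KP p.2 p.1.2 := by
    refine Measurable.stronglyMeasurable ?_
    refine (hF.comp ((sp n k).symm.measurable.comp
      (measurable_snd.prodMk (measurable_fst.comp measurable_fst)))).mul ?_
    exact (KP_cont.comp (continuous_snd.prodMk (continuous_snd.comp continuous_fst))).measurable
  exact (h.integral_prod_right (ν := (volume : Measure (E n)).restrict (cube n))).measurable

theorem sl_meas2 {F : E (n + k) → ℂ} (hF : Measurable F) (x : E n × ℝ) :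
    Measurable fun η : E k => ext (sl F η) x := by
  have h : Measurable (fun η : E k => (η, x)) := measurable_id.prodMk measurable_const
  have h2 := (sl_joint (n := n) (k := k) hF).comp h
  simp only [Function.comp_def] at h2
  exact h2

theorem vol_cube_ne_top (m : ℕ) : volume (cube m) ≠ ⊤ := by
  have := cube_finite (n := m)
  have h := measure_ne_top ((volume : Measure (E m)).restrict (cube m)) univ
  rwa [Measure.restrict_apply_univ] at h

theorem vol_cube_pos (m : ℕ) : volume (cube m) ≠ 0 := by
  have h : ball (0 : E m) 1 ⊆ cube m := by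
    intro ξ hξ i
    rw [mem_ball_zero_iff] at hξ
    exact (Real.norm_eq_abs _ ▸ PiLp.norm_apply_le ξ i).trans hξ.le
  exact fun h0 => (measure_ball_pos volume (0 : E m) one_pos).ne' (measure_mono_null h h0)

theorem ext_norm_le {m : ℕ} {f : E m → ℂ} (hf : ∀ ξ, ‖f ξ‖ ≤ 1) (x : E m × ℝ) :
    ‖ext f x‖ ≤ (volume (cube m)).toReal := by
  unfold ext
  have h := norm_setIntegral_le_of_norm_le_const (μ := (volume : Measure (E m))) (s := cube m)
    (f := fun ξ => f ξ * KP ξ x) (C := 1) (lt_top_iff_ne_top.2 (vol_cube_ne_top m))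
    (fun ξ _ => by
      rw [norm_mul]
      exact mul_le_one₀ (hf ξ) (norm_nonneg _) (KP_norm ξ x))
  rwa [one_mul, measureReal_def] at h

theorem ph_meas {F : E (n + k) → ℂ} (hF : Measurable F) (x : E n) (t : ℝ) :
    Measurable (ph F x t) := by
  unfold ph
  refine Measurable.indicator ?_ cube_closed.measurableSet
  refine Measurable.mul ?_ ?_
  · exact (Pool.Agent.H222.ER.KP_cont_left ((0 : E k), t)).measurable
  · exact sl_meas2 (n := n) (k := k) hF (x, t)

theorem ph_bdd {F : E (n + k) → ℂ} (hF : ∀ ξ, ‖F ξ‖ ≤ 1) (x : E n) (t : ℝ) (η : E k) :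
    ‖ph F x t η‖ ≤ (volume (cube n)).toReal := by
  unfold ph
  by_cases hη : η ∈ cube k
  · rw [indicator_of_mem hη, norm_mul]
    calc ‖KP η (0, t)‖ * ‖ext (sl F η) (x, t)‖ ≤ 1 * (volume (cube n)).toReal := by
          gcongr
          · exact KP_norm _ _
          · exact ext_norm_le (sl_le hF η) _
      _ = _ := one_mul _
  · rw [indicator_of_notMem hη, norm_zero]
    exact ENNReal.toReal_nonneg

theorem ph_memLp {F : E (n + k) → ℂ} (hF : Measurable F) (hF1 : ∀ ξ, ‖F ξ‖ ≤ 1) (x : E n) (t : ℝ)
    (p : ℝ≥0∞) : MemLp (ph F x t) p := by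
  have h1 : MemLp (ph F x t) p ((volume : Measure (E k)).restrict (cube k)) :=
    MemLp.of_bound (ph_meas hF x t).aestronglyMeasurable _ (Eventually.of_forall (ph_bdd hF1 x t))
  have h2 : ph F x t = (cube k).indicator (ph F x t) := by
    unfold ph
    rw [indicator_indicator, inter_self]
  rw [h2, memLp_indicator_iff_restrict cube_closed.measurableSet]
  exact h1

theorem ext_slice {F : E (n + k) → ℂ} (hF : Measurable F) (hF1 : ∀ ξ, ‖F ξ‖ ≤ 1) (x : E n)
    (y : E k) (t : ℝ) : ext F ((sp n k).symm (x, y), t) = 𝓕 (ph F x t) (-y) := by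
  have e0 : (sp n k) ((sp n k).symm (x, y)) = (x, y) := (sp n k).apply_symm_apply _
  set G : E n × E k → ℂ := fun p => (cube n ×ˢ cube k).indicator
    (fun p => F ((sp n k).symm p) * (KP p.1 (x, t) * KP p.2 (y, t))) p with hG
  have hGm : Measurable G := by
    refine Measurable.indicator ?_ (cube_closed.measurableSet.prod cube_closed.measurableSet)
    refine (hF.comp (sp n k).symm.measurable).mul (Measurable.mul ?_ ?_)
    · exact ((Pool.Agent.H222.ER.KP_cont_left (x, t)).comp continuous_fst).measurable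
    · exact ((Pool.Agent.H222.ER.KP_cont_left (y, t)).comp continuous_snd).measurable
  have hGi : Integrable G (volume.prod volume) := by
    rw [hG]
    rw [show (fun p : E n × E k => (cube n ×ˢ cube k).indicator
      (fun p => F ((sp n k).symm p) * (KP p.1 (x, t) * KP p.2 (y, t))) p) =
      (cube n ×ˢ cube k).indicator
      (fun p => F ((sp n k).symm p) * (KP p.1 (x, t) * KP p.2 (y, t))) from rfl,
      integrable_indicator_iff (cube_closed.measurableSet.prod cube_closed.measurableSet),
      IntegrableOn, ← Measure.prod_restrict]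
    refine Integrable.of_bound (C := 1) ?_ (Eventually.of_forall fun p => ?_)
    · refine Measurable.aestronglyMeasurable ?_
      refine (hF.comp (sp n k).symm.measurable).mul (Measurable.mul ?_ ?_)
      · exact ((Pool.Agent.H222.ER.KP_cont_left (x, t)).comp continuous_fst).measurable
      · exact ((Pool.Agent.H222.ER.KP_cont_left (y, t)).comp continuous_snd).measurable
    · rw [norm_mul, norm_mul]
      exact mul_le_one₀ (hF1 _) (by positivity)
        (mul_le_one₀ (KP_norm _ _) (norm_nonneg _) (KP_norm _ _))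
  have h1 : ext F ((sp n k).symm (x, y), t) = ∫ p, G p ∂(volume.prod volume) := by
    rw [ext_ind, ← Measure.volume_eq_prod, ← (sp_mp n k).integral_comp (sp n k).measurableEmbedding]
    refine integral_congr_ae (Eventually.of_forall fun ξ => ?_)
    rw [hG]
    beta_reduce
    by_cases hξ : ξ ∈ cube (n + k)
    · rw [indicator_of_mem hξ, indicator_of_mem (show sp n k ξ ∈ cube n ×ˢ cube k from
        (cube_sp ξ).1 hξ), KP_sp, e0, MeasurableEquiv.symm_apply_apply]
    · rw [indicator_of_notMem hξ, indicator_of_notMem (fun h : sp n k ξ ∈ cube n ×ˢ cube k =>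
        hξ ((cube_sp ξ).2 h))]
  rw [h1, integral_prod_symm _ hGi, Real.fourier_eq']
  refine integral_congr_ae (Eventually.of_forall fun η => ?_)
  beta_reduce
  by_cases hη : η ∈ cube k
  · unfold ph
    rw [indicator_of_mem hη, smul_eq_mul, ext_ind]
    have h2 : ∀ ξ, G (ξ, η) = KP η (y, t) * (cube n).indicator (fun ξ => sl F η ξ * KP ξ (x, t)) ξ := by
      intro ξ
      rw [hG]
      beta_reduce
      by_cases hξ : ξ ∈ cube n
      · rw [indicator_of_mem (show (ξ, η) ∈ cube n ×ˢ cube k from ⟨hξ, hη⟩), indicator_of_mem hξ]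
        unfold sl
        ring
      · rw [indicator_of_notMem (fun h : (ξ, η) ∈ cube n ×ˢ cube k => hξ h.1),
          indicator_of_notMem hξ, mul_zero]
    simp only [h2]
    rw [integral_const_mul, ← mul_assoc]
    congr 1
    unfold KP
    rw [← Complex.exp_add]
    congr 1
    simp only [inner_neg_right, inner_zero_right]
    push_cast
    ring
  · have h2 : ∀ ξ, G (ξ, η) = 0 := fun ξ => by
      rw [hG]
      beta_reduce
      rw [indicator_of_notMem (fun h : (ξ, η) ∈ cube n ×ˢ cube k => hη h.2)]
    simp only [h2]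
    unfold ph
    rw [indicator_of_notMem hη]
    simp

/-- Plancherel -/
theorem slice_two {F : E (n + k) → ℂ} (hF : Measurable F) (hF1 : ∀ ξ, ‖F ξ‖ ≤ 1) (x : E n)
    (t : ℝ) : ∫⁻ y : E k, ‖ext F ((sp n k).symm (x, y), t)‖ₑ ^ 2 =
      ∫⁻ η in cube k, ‖ext (sl F η) (x, t)‖ₑ ^ 2 := by
  have h1 : ∫⁻ y : E k, ‖ext F ((sp n k).symm (x, y), t)‖ₑ ^ 2 =
      ∫⁻ y : E k, ‖𝓕 (ph F x t) y‖ₑ ^ 2 := by
    have h2 : MeasurePreserving (fun y : E k => -y) := Measure.measurePreserving_neg volume
    rw [← h2.lintegral_comp_emb (MeasurableEquiv.neg (E k)).measurableEmbedding]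
    refine lintegral_congr fun y => ?_
    rw [ext_slice hF hF1, neg_neg]
  rw [h1, Pool.Agent.H153R4.plancherel _ (memLp_one_iff_integrable.1 (ph_memLp hF hF1 x t 1))
    (ph_memLp hF hF1 x t 2), ← lintegral_indicator cube_closed.measurableSet]
  refine lintegral_congr fun η => ?_
  unfold ph
  by_cases hη : η ∈ cube k
  · rw [indicator_of_mem hη, indicator_of_mem hη, enorm_mul]
    have : ‖KP η (0, t)‖ₑ = 1 := by
      unfold KP
      rw [← ofReal_norm, Complex.norm_exp_ofReal_mul_I, ENNReal.ofReal_one]
    rw [this, one_mul]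
  · rw [indicator_of_notMem hη, indicator_of_notMem hη]
    simp

end Pool.Agent.H272.RD
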