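import Pool.Agent.H222.ER.Fin

/-!
The extension operator of the paraboloid on tensor products: `E (f ⊗ g) = E f · E g`, with a common
time variable.
-/

open MeasureTheory Set Filter Metric
open scoped ENNReal NNReal Topology ContDiff SchwartzMap FourierTransform

namespace Pool.Agent.H272.RD

open Pool.Agent.Helper184.PH

/-- the splitting of the coordinates of `ℝ^(n+k)` -/
noncomputable def sp (n k : ℕ) : E (n + k) ≃ᵐ E n × E k :=
  (MeasurableEquiv.toLp 2 (Fin (n + k) → ℝ)).symm.trans <|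
  (MeasurableEquiv.piCongrLeft (fun _ : Fin n ⊕ Fin k => ℝ) finSumFinEquiv.symm).trans <|
  (MeasurableEquiv.sumPiEquivProdPi (fun _ : Fin n ⊕ Fin k => ℝ)).trans <|
  (MeasurableEquiv.toLp 2 (Fin n → ℝ)).prodCongr (MeasurableEquiv.toLp 2 (Fin k → ℝ))

theorem sp_mp (n k : ℕ) : MeasurePreserving (sp n k) := by
  unfold sp
  refine (EuclideanSpace.volume_preserving_symm_measurableEquiv_toLp _).trans ?_
  refine (volume_measurePreserving_piCongrLeft (fun _ : Fin n ⊕ Fin k => ℝ)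
    finSumFinEquiv.symm).trans ?_
  refine (volume_measurePreserving_sumPiEquivProdPi (fun _ : Fin n ⊕ Fin k => ℝ)).trans ?_
  exact (EuclideanSpace.volume_preserving_symm_measurableEquiv_toLp _).symm.prod
    (EuclideanSpace.volume_preserving_symm_measurableEquiv_toLp _).symm

theorem pc_apply {n k : ℕ} (v : Fin (n + k) → ℝ) (a : Fin (n + k)) :
    MeasurableEquiv.piCongrLeft (fun _ : Fin n ⊕ Fin k => ℝ) finSumFinEquiv.symm v
      (finSumFinEquiv.symm a) = v a :=
  Equiv.piCongrLeft_apply_apply (fun _ : Fin n ⊕ Fin k => ℝ) finSumFinEquiv.symm v a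

theorem sp_fst (n k : ℕ) (ξ : E (n + k)) (i : Fin n) :
    (sp n k ξ).1 i = ξ (Fin.castAdd k i) := by
  have h := pc_apply (n := n) (k := k) (fun j => ξ j) (Fin.castAdd k i)
  rw [finSumFinEquiv_symm_apply_castAdd] at h
  exact h

theorem sp_snd (n k : ℕ) (ξ : E (n + k)) (i : Fin k) :
    (sp n k ξ).2 i = ξ (Fin.natAdd n i) := by
  have h := pc_apply (n := n) (k := k) (fun j => ξ j) (Fin.natAdd n i)
  rw [finSumFinEquiv_symm_apply_natAdd] at h
  exact h

theorem inner_sp {n k : ℕ} (ξ x : E (n + k)) :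
    inner ℝ ξ x = inner ℝ (sp n k ξ).1 (sp n k x).1 + inner ℝ (sp n k ξ).2 (sp n k x).2 := by
  simp only [PiLp.inner_apply, sp_fst, sp_snd]
  rw [Fin.sum_univ_add]

theorem norm_sp {n k : ℕ} (ξ : E (n + k)) :
    ‖ξ‖ ^ 2 = ‖(sp n k ξ).1‖ ^ 2 + ‖(sp n k ξ).2‖ ^ 2 := by
  rw [← real_inner_self_eq_norm_sq, ← real_inner_self_eq_norm_sq, ← real_inner_self_eq_norm_sq,
    inner_sp]

theorem cube_sp {n k : ℕ} (ξ : E (n + k)) :
    ξ ∈ cube (n + k) ↔ (sp n k ξ).1 ∈ cube n ∧ (sp n k ξ).2 ∈ cube k := by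
  constructor
  · exact fun h => ⟨fun i => by rw [sp_fst]; exact h _, fun i => by rw [sp_snd]; exact h _⟩
  · rintro ⟨h1, h2⟩ i
    refine Fin.addCases (fun i => ?_) (fun i => ?_) i
    · rw [← sp_fst]; exact h1 i
    · rw [← sp_snd]; exact h2 i

/-- tensor products -/
noncomputable def ten {n k : ℕ} (f : E n → ℂ) (g : E k → ℂ) (ξ : E (n + k)) : ℂ :=
  f (sp n k ξ).1 * g (sp n k ξ).2

theorem ten_meas {n k : ℕ} {f : E n → ℂ} {g : E k → ℂ} (hf : Measurable f) (hg : Measurable g) :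
    Measurable (ten f g) := by
  unfold ten
  have h := (sp n k).measurable
  exact (hf.comp (measurable_fst.comp h)).mul (hg.comp (measurable_snd.comp h))

theorem ten_le {n k : ℕ} {f : E n → ℂ} {g : E k → ℂ} (hf : ∀ ξ, ‖f ξ‖ ≤ 1) (hg : ∀ ξ, ‖g ξ‖ ≤ 1)
    (ξ : E (n + k)) : ‖ten f g ξ‖ ≤ 1 := by
  unfold ten
  rw [norm_mul]
  exact mul_le_one₀ (hf _) (norm_nonneg _) (hg _)

/-- the extension operator -/
noncomputable def ext {n : ℕ} (f : E n → ℂ) (x : E n × ℝ) : ℂ :=
  ∫ ξ in cube n, f ξ * KP ξ x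

theorem ext_ind {n : ℕ} (f : E n → ℂ) (x : E n × ℝ) :
    ext f x = ∫ ξ, (cube n).indicator (fun ξ => f ξ * KP ξ x) ξ := by
  unfold ext
  rw [integral_indicator cube_closed.measurableSet]

theorem KP_sp {n k : ℕ} (ξ x : E (n + k)) (t : ℝ) :
    KP ξ (x, t) = KP (sp n k ξ).1 ((sp n k x).1, t) * KP (sp n k ξ).2 ((sp n k x).2, t) := by
  unfold KP
  rw [← Complex.exp_add]
  congr 1
  rw [inner_sp, norm_sp]
  push_cast
  ring

theorem ext_ten {n k : ℕ} (f : E n → ℂ) (g : E k → ℂ) (x : E (n + k)) (t : ℝ) :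
    ext (ten f g) (x, t) = ext f ((sp n k x).1, t) * ext g ((sp n k x).2, t) := by
  rw [ext_ind, ext_ind, ext_ind, ← integral_prod_mul, ← Measure.volume_eq_prod,
    ← (sp_mp n k).integral_comp (sp n k).measurableEmbedding]
  refine integral_congr_ae (Eventually.of_forall fun ξ => ?_)
  beta_reduce
  by_cases h1 : (sp n k ξ).1 ∈ cube n
  · by_cases h2 : (sp n k ξ).2 ∈ cube k
    · rw [indicator_of_mem ((cube_sp ξ).2 ⟨h1, h2⟩), indicator_of_mem h1, indicator_of_mem h2,
        KP_sp]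
      unfold ten
      ring
    · rw [indicator_of_notMem (fun h => h2 ((cube_sp ξ).1 h).2), indicator_of_notMem h2, mul_zero]
  · rw [indicator_of_notMem (fun h => h1 ((cube_sp ξ).1 h).1), indicator_of_notMem h1, zero_mul]

/-- the `q`-th power of the `L^q` norm of a time slice -/
noncomputable def A {n : ℕ} (q : ℝ) (f : E n → ℂ) (t : ℝ) : ℝ≥0∞ := ∫⁻ x : E n, ‖ext f (x, t)‖ₑ ^ q

theorem ext_meas {n : ℕ} {f : E n → ℂ} (hf : Measurable f) : Measurable (ext f) := by
  have h : StronglyMeasurable fun p : (E n × ℝ) × E n => f p.2 * KP p.2 p.1 := by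
    refine Measurable.stronglyMeasurable ?_
    exact (hf.comp measurable_snd).mul
      ((KP_cont.comp (continuous_snd.prodMk continuous_fst)).measurable)
  exact (h.integral_prod_right (ν := (volume : Measure (E n)).restrict (cube n))).measurable

theorem A_meas {n : ℕ} {f : E n → ℂ} (hf : Measurable f) (q : ℝ) : Measurable (A q f) := by
  unfold A
  refine Measurable.lintegral_prod_left' (f := fun p : E n × ℝ => ‖ext f (p.1, p.2)‖ₑ ^ q) ?_
  exact ((ext_meas hf).enorm).pow_const q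

theorem A_ten {n k : ℕ} {f : E n → ℂ} {g : E k → ℂ} (hf : Measurable f) (hg : Measurable g)
    {q : ℝ} (hq : 0 ≤ q) (t : ℝ) : A q (ten f g) t = A q f t * A q g t := by
  unfold A
  have h1 : ∀ (m : ℕ) (h : E m → ℂ), Measurable h → Measurable fun x : E m => ‖ext h (x, t)‖ₑ ^ q :=
    fun m h hh => (((ext_meas hh).comp (measurable_id.prodMk measurable_const)).enorm).pow_const q
  rw [← lintegral_prod_mul (h1 n f hf).aemeasurable (h1 k g hg).aemeasurable,
    ← Measure.volume_eq_prod, ← (sp_mp n k).lintegral_comp_emb (sp n k).measurableEmbedding]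
  refine lintegral_congr fun x => ?_
  rw [ext_ten, enorm_mul, ENNReal.mul_rpow_of_nonneg _ _ hq]

theorem total {n : ℕ} {f : E n → ℂ} (hf : Measurable f) (q : ℝ) :
    ∫⁻ x, ‖ext f x‖ₑ ^ q = ∫⁻ t, A q f t := by
  unfold A
  rw [Measure.volume_eq_prod, lintegral_prod_symm _
    (((ext_meas hf).enorm).pow_const q).aemeasurable]

end Pool.Agent.H272.RD
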