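import Pool.Agent.H272.RD.Slice

/-!
From low to high dimensions, and the mixed norms.
-/

open MeasureTheory Set Filter Metric
open scoped ENNReal NNReal Topology FourierTransform

namespace Pool.Agent.H272.RD

open Pool.Agent.Helper184.PH

variable {n k : ℕ}

/-- the integral over the slices -/
noncomputable def Mq (k : ℕ) (q : ℝ) (F : E (n + k) → ℂ) (p : E n × ℝ) : ℝ≥0∞ :=
  ∫⁻ η in cube k, ‖ext (sl (n := n) (k := k) F η) p‖ₑ ^ q

theorem Mq_meas {F : E (n + k) → ℂ} (hF : Measurable F) (q : ℝ) :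
    Measurable (Mq (n := n) k q F) := by
  unfold Mq
  refine Measurable.lintegral_prod_left' (f := fun p : E k × (E n × ℝ) =>
    ‖ext (sl (n := n) (k := k) F p.1) p.2‖ₑ ^ q) ?_
  exact ((sl_joint (n := n) (k := k) hF).enorm).pow_const q

theorem a_meas {F : E (n + k) → ℂ} (hF : Measurable F) (q : ℝ) (p : E n × ℝ) :
    Measurable fun η : E k => ‖ext (sl (n := n) (k := k) F η) p‖ₑ ^ q :=
  ((sl_meas2 (n := n) (k := k) hF p).enorm).pow_const q

theorem M2_le {q : ℝ} (hq : 2 ≤ q) {F : E (n + k) → ℂ} (hF : Measurable F) (p : E n × ℝ) :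
    (Mq (n := n) k 2 F p) ^ (q / 2) ≤ volume (cube k) ^ (q / 2 - 1) * Mq (n := n) k q F p := by
  have hq0 : 0 < q := by linarith
  have h2 := ENNReal.lintegral_mul_norm_pow_le (μ := volume.restrict (cube k))
    (f := fun η => ‖ext (sl (n := n) (k := k) F η) p‖ₑ ^ q) (g := fun _ => 1)
    (a_meas hF q p).aemeasurable aemeasurable_const
    (p := 2 / q) (q := 1 - 2 / q) (by positivity)
    (by rw [sub_nonneg, div_le_one hq0]; exact hq) (by ring)
  have h3 : ∀ η, (‖ext (sl (n := n) (k := k) F η) p‖ₑ ^ q) ^ (2 / q) =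
      ‖ext (sl (n := n) (k := k) F η) p‖ₑ ^ (2 : ℝ) := fun y => by
    rw [← ENNReal.rpow_mul]
    congr 1
    field_simp
  simp only [h3, ENNReal.one_rpow, mul_one, lintegral_const, one_mul,
    Measure.restrict_apply_univ] at h2
  have h4 : Mq (n := n) k 2 F p ≤ Mq (n := n) k q F p ^ (2 / q) * volume (cube k) ^ (1 - 2 / q) := h2
  calc (Mq (n := n) k 2 F p) ^ (q / 2)
      ≤ (Mq (n := n) k q F p ^ (2 / q) * volume (cube k) ^ (1 - 2 / q)) ^ (q / 2) := by gcongr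
    _ = volume (cube k) ^ (q / 2 - 1) * Mq (n := n) k q F p := by
        rw [ENNReal.mul_rpow_of_nonneg _ _ (by positivity), ← ENNReal.rpow_mul,
          ← ENNReal.rpow_mul, mul_comm]
        congr 1
        · congr 1
          field_simp
        · rw [show 2 / q * (q / 2) = 1 by field_simp, ENNReal.rpow_one]

theorem M1_le {F : E (n + k) → ℂ} (hF : Measurable F) (p : E n × ℝ) :
    Mq (n := n) k 1 F p ≤ (Mq (n := n) k 2 F p * volume (cube k)) ^ (1 / 2 : ℝ) := by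
  have h2 := ENNReal.lintegral_mul_norm_pow_le (μ := volume.restrict (cube k))
    (f := fun η => ‖ext (sl (n := n) (k := k) F η) p‖ₑ ^ (2 : ℝ)) (g := fun _ => 1)
    (a_meas hF 2 p).aemeasurable aemeasurable_const
    (p := 1 / 2) (q := 1 / 2) (by norm_num) (by norm_num) (by norm_num)
  have h3 : ∀ η, (‖ext (sl (n := n) (k := k) F η) p‖ₑ ^ (2 : ℝ)) ^ (1 / 2 : ℝ) =
      ‖ext (sl (n := n) (k := k) F η) p‖ₑ ^ (1 : ℝ) := fun y => by
    rw [← ENNReal.rpow_mul]
    norm_num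
  simp only [h3, ENNReal.one_rpow, mul_one, lintegral_const, one_mul,
    Measure.restrict_apply_univ] at h2
  rw [ENNReal.mul_rpow_of_nonneg _ _ (by norm_num)]
  exact h2

theorem sup_le {F : E (n + k) → ℂ} (hF : Measurable F) (hF1 : ∀ ξ, ‖F ξ‖ ≤ 1) (x : E n) (y : E k)
    (t : ℝ) : ‖ext F ((sp n k).symm (x, y), t)‖ₑ ≤ Mq (n := n) k 1 F (x, t) := by
  rw [ext_slice hF hF1, Real.fourier_eq']
  refine (enorm_integral_le_lintegral_enorm _).trans ?_
  unfold Mq
  rw [← lintegral_indicator cube_closed.measurableSet]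
  refine lintegral_mono fun η => ?_
  rw [smul_eq_mul, enorm_mul]
  have h1 : ∀ s : ℝ, ‖Complex.exp ((s : ℂ) * Complex.I)‖ₑ = 1 := fun s => by
    rw [← ofReal_norm, Complex.norm_exp_ofReal_mul_I, ENNReal.ofReal_one]
  rw [h1, one_mul]
  unfold ph
  by_cases hη : η ∈ cube k
  · rw [indicator_of_mem hη, indicator_of_mem hη, enorm_mul]
    have : ‖KP η (0, t)‖ₑ = 1 := by
      unfold KP
      exact h1 _
    rw [this, one_mul, ENNReal.rpow_one]
  · rw [indicator_of_notMem hη, enorm_zero]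
    exact bot_le

theorem F_meas {F : E (n + k) → ℂ} (hF : Measurable F) (x : E n) (t : ℝ) :
    Measurable fun y : E k => ext F ((sp n k).symm (x, y), t) := by
  have h : Measurable fun y : E k => ((sp n k).symm (x, y), t) :=
    ((sp n k).symm.measurable.comp (measurable_const.prodMk measurable_id)).prodMk measurable_const
  exact (ext_meas hF).comp h

theorem slice_two' {F : E (n + k) → ℂ} (hF : Measurable F) (hF1 : ∀ ξ, ‖F ξ‖ ≤ 1) (x : E n)
    (t : ℝ) : ∫⁻ y : E k, ‖ext F ((sp n k).symm (x, y), t)‖ₑ ^ (2 : ℝ) =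
      Mq (n := n) k 2 F (x, t) := by
  unfold Mq
  simp only [ENNReal.rpow_ofNat]
  exact slice_two hF hF1 x t

theorem slice_q {q : ℝ} (hq : 2 ≤ q) {F : E (n + k) → ℂ} (hF : Measurable F)
    (hF1 : ∀ ξ, ‖F ξ‖ ≤ 1) (x : E n) (t : ℝ) :
    ∫⁻ y : E k, ‖ext F ((sp n k).symm (x, y), t)‖ₑ ^ q ≤
      volume (cube k) ^ (q - 2) * Mq (n := n) k q F (x, t) := by
  set v : ℝ≥0∞ := volume (cube k) with hv
  have hv0 : v ≠ 0 := vol_cube_pos k
  have hvt : v ≠ ⊤ := vol_cube_ne_top k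
  set M : ℝ≥0∞ := Mq (n := n) k 2 F (x, t) with hM
  have h1 : ∀ y : E k, ‖ext F ((sp n k).symm (x, y), t)‖ₑ ^ q ≤
      (M * v) ^ (q / 2 - 1) * ‖ext F ((sp n k).symm (x, y), t)‖ₑ ^ (2 : ℝ) := by
    intro y
    have h2 : q = (q - 2) + 2 := by ring
    have h3 : ‖ext F ((sp n k).symm (x, y), t)‖ₑ ^ q =
        ‖ext F ((sp n k).symm (x, y), t)‖ₑ ^ (q - 2) *
          ‖ext F ((sp n k).symm (x, y), t)‖ₑ ^ (2 : ℝ) := by
      rw [← ENNReal.rpow_add_of_nonneg _ _ (by linarith) (by norm_num)]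
      congr 1
    rw [h3]
    refine mul_le_mul' ?_ le_rfl
    calc ‖ext F ((sp n k).symm (x, y), t)‖ₑ ^ (q - 2)
        ≤ ((M * v) ^ (1 / 2 : ℝ)) ^ (q - 2) := by
          refine ENNReal.rpow_le_rpow ?_ (by linarith)
          exact (sup_le hF hF1 x y t).trans (M1_le hF (x, t))
      _ = (M * v) ^ (q / 2 - 1) := by
          rw [← ENNReal.rpow_mul]
          congr 1
          ring
  have hMt : M ≠ ⊤ := by
    rw [hM]
    unfold Mq
    refine ne_top_of_le_ne_top (b := ∫⁻ η in cube k, ENNReal.ofReal (volume (cube n)).toReal ^ (2 : ℝ))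
      ?_ ?_
    · rw [setLIntegral_const]
      exact ENNReal.mul_ne_top (ENNReal.rpow_ne_top_of_nonneg (by norm_num) ENNReal.ofReal_ne_top) hvt
    · refine lintegral_mono fun η => ?_
      refine ENNReal.rpow_le_rpow ?_ (by norm_num)
      rw [← ofReal_norm]
      exact ENNReal.ofReal_le_ofReal (ext_norm_le (sl_le hF1 η) _)
  have hct : (M * v) ^ (q / 2 - 1) ≠ ⊤ :=
    ENNReal.rpow_ne_top_of_nonneg (by linarith) (ENNReal.mul_ne_top hMt hvt)
  calc ∫⁻ y : E k, ‖ext F ((sp n k).symm (x, y), t)‖ₑ ^ q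
      ≤ ∫⁻ y : E k, (M * v) ^ (q / 2 - 1) * ‖ext F ((sp n k).symm (x, y), t)‖ₑ ^ (2 : ℝ) :=
        lintegral_mono h1
    _ = (M * v) ^ (q / 2 - 1) * M := by
        rw [lintegral_const_mul' _ _ hct, slice_two' hF hF1]
    _ = v ^ (q / 2 - 1) * M ^ (q / 2) := by
        rw [ENNReal.mul_rpow_of_nonneg _ _ (by linarith)]
        have : M ^ (q / 2) = M ^ (q / 2 - 1) * M := by
          conv_rhs => rw [← ENNReal.rpow_one M, ← ENNReal.rpow_mul, one_mul]
          rw [← ENNReal.rpow_add_of_nonneg _ _ (by linarith) (by norm_num)]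
          congr 1
          ring
        rw [this]
        ring
    _ ≤ v ^ (q / 2 - 1) * (v ^ (q / 2 - 1) * Mq (n := n) k q F (x, t)) := by
        gcongr
        exact M2_le hq hF (x, t)
    _ = v ^ (q - 2) * Mq (n := n) k q F (x, t) := by
        rw [← mul_assoc, ← ENNReal.rpow_add _ _ hv0 hvt]
        congr 2
        ring

/-- the integral over the slices, integrated -/
theorem Mq_int {q : ℝ} {F : E (n + k) → ℂ} (hF : Measurable F) (S : Set (E n × ℝ)) {C : ℝ≥0∞}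
    (h : ∀ η : E k, (∫⁻ p in S, ‖ext (sl (n := n) (k := k) F η) p‖ₑ ^ q) ≤ C) :
    (∫⁻ p in S, Mq (n := n) k q F p) ≤ volume (cube k) * C := by
  have h2 : (∫⁻ p in S, Mq (n := n) k q F p) = ∫⁻ η in cube k, ∫⁻ p in S,
      ‖ext (sl (n := n) (k := k) F η) p‖ₑ ^ q := by
    unfold Mq
    rw [lintegral_lintegral_swap]
    refine Measurable.aemeasurable ?_
    exact (((sl_joint (n := n) (k := k) hF).comp measurable_swap).enorm).pow_const q
  rw [h2]
  refine (lintegral_mono fun η => h η).trans ?_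
  rw [setLIntegral_const, mul_comm]

theorem up_int {q : ℝ} (hq : 2 ≤ q) {F : E (n + k) → ℂ} (hF : Measurable F)
    (hF1 : ∀ ξ, ‖F ξ‖ ≤ 1) (B : Set (E n)) (T : Set ℝ) :
    ∫⁻ X in ((sp n k) ⁻¹' (B ×ˢ univ)) ×ˢ T, ‖ext F X‖ₑ ^ q ≤
      volume (cube k) ^ (q - 2) * ∫⁻ p in B ×ˢ T, Mq (n := n) k q F p := by
  have hq2 : 0 ≤ q - 2 := by linarith
  have hvt : volume (cube k) ^ (q - 2) ≠ ⊤ :=
    ENNReal.rpow_ne_top_of_nonneg hq2 (vol_cube_ne_top k)
  rw [Measure.volume_eq_prod, ← Measure.prod_restrict, lintegral_prod_symm _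
    (((ext_meas hF).enorm).pow_const q).aemeasurable, Measure.volume_eq_prod (E n) ℝ,
    ← Measure.prod_restrict, lintegral_prod_symm _ (Mq_meas hF q).aemeasurable]
  rw [← lintegral_const_mul' _ _ hvt]
  refine lintegral_mono fun t => ?_
  have hFm : Measurable fun X : E (n + k) => ‖ext F (X, t)‖ₑ ^ q :=
    ((((ext_meas hF).comp (measurable_id.prodMk measurable_const))).enorm).pow_const q
  have h1 : ∫⁻ X in (sp n k) ⁻¹' (B ×ˢ univ), ‖ext F (X, t)‖ₑ ^ q =
      ∫⁻ p in B ×ˢ (univ : Set (E k)), ‖ext F ((sp n k).symm p, t)‖ₑ ^ q := by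
    rw [← (sp_mp n k).setLIntegral_comp_preimage_emb (sp n k).measurableEmbedding]
    refine lintegral_congr fun X => ?_
    rw [MeasurableEquiv.symm_apply_apply]
  have hFm2 : Measurable fun p : E n × E k => ‖ext F ((sp n k).symm p, t)‖ₑ ^ q :=
    hFm.comp (sp n k).symm.measurable
  rw [h1, Measure.volume_eq_prod, ← Measure.prod_restrict, lintegral_prod _
    hFm2.aemeasurable, ← lintegral_const_mul' _ _ hvt]
  refine lintegral_mono fun x => ?_
  rw [Measure.restrict_univ]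
  exact slice_q hq hF hF1 x t

/-- **From low to high dimensions.** -/
theorem est_up {q : ℝ} (hq : 2 ≤ q) (h : Estimate n q) : Estimate (n + k) q := by
  obtain ⟨C, hC⟩ := h
  set v := volume (cube k) with hv
  have hvt : v ≠ ⊤ := vol_cube_ne_top k
  have hKt : v ^ (q - 2) * (v * C) ≠ ⊤ := ENNReal.mul_ne_top
    (ENNReal.rpow_ne_top_of_nonneg (by linarith) hvt) (ENNReal.mul_ne_top hvt ENNReal.coe_ne_top)
  refine ⟨(v ^ (q - 2) * (v * C)).toNNReal, fun F hF hF1 => ?_⟩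
  rw [ENNReal.coe_toNNReal hKt]
  have h1 := up_int hq hF hF1 univ univ
  rw [univ_prod_univ, preimage_univ, univ_prod_univ, Measure.restrict_univ, univ_prod_univ] at h1
  refine h1.trans ?_
  gcongr
  refine Mq_int hF univ fun η => ?_
  rw [Measure.restrict_univ]
  exact hC _ (sl_meas hF η) (sl_le hF1 η)

theorem loc_up {q τ : ℝ} (hq : 2 ≤ q) (h : Loc n q τ) : Loc (n + k) q τ := by
  obtain ⟨C, hC⟩ := h
  set v := volume (cube k) with hv
  have hvt : v ≠ ⊤ := vol_cube_ne_top k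
  have hKt : v ^ (q - 2) * (v * C) ≠ ⊤ := ENNReal.mul_ne_top
    (ENNReal.rpow_ne_top_of_nonneg (by linarith) hvt) (ENNReal.mul_ne_top hvt ENNReal.coe_ne_top)
  refine ⟨(v ^ (q - 2) * (v * C)).toNNReal, fun F hF hF1 R hR => ?_⟩
  rw [ENNReal.coe_toNNReal hKt]
  have h1 := up_int hq hF hF1 (closedBall 0 R) (closedBall 0 R)
  have h2 : closedBall (0 : E (n + k) × ℝ) R ⊆
      ((sp n k) ⁻¹' (closedBall (0 : E n) R ×ˢ univ)) ×ˢ closedBall (0 : ℝ) R := by
    rintro ⟨X, t⟩ hX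
    rw [mem_closedBall_zero_iff, Prod.norm_def] at hX
    refine ⟨⟨?_, mem_univ _⟩, ?_⟩
    · rw [mem_closedBall_zero_iff]
      have h3 : ‖(sp n k X).1‖ ≤ ‖X‖ := by
        refine le_of_sq_le_sq ?_ (norm_nonneg _)
        rw [norm_sp X]
        nlinarith [norm_nonneg (sp n k X).2]
      exact h3.trans ((le_max_left _ _).trans hX)
    · rw [mem_closedBall_zero_iff]
      exact (le_max_right _ _).trans hX
  have h3 : closedBall (0 : E n) R ×ˢ closedBall (0 : ℝ) R = closedBall (0 : E n × ℝ) R := by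
    rw [closedBall_prod_same]; rfl
  rw [h3] at h1
  refine (lintegral_mono_set h2).trans (h1.trans ?_)
  rw [mul_assoc, mul_assoc]
  gcongr
  exact Mq_int hF _ fun η => hC _ (sl_meas hF η) (sl_le hF1 η) R hR

/-- the mixed norm estimate: `L^q` in `(x, t)`, `L²` in `y` -/
def Mixed (n k : ℕ) (q : ℝ) : Prop :=
  ∃ C : ℝ≥0, ∀ F : E (n + k) → ℂ, Measurable F → (∀ ξ, ‖F ξ‖ ≤ 1) →
    (∫⁻ p : E n × ℝ, (∫⁻ y : E k, ‖ext F ((sp n k).symm (p.1, y), p.2)‖ₑ ^ (2 : ℝ)) ^ (q / 2)) ≤ C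

theorem mixed_of_est {q : ℝ} (hq : 2 ≤ q) (h : Estimate n q) : Mixed n k q := by
  obtain ⟨C, hC⟩ := h
  set v := volume (cube k) with hv
  have hvt : v ≠ ⊤ := vol_cube_ne_top k
  have hv1 : v ^ (q / 2 - 1) ≠ ⊤ := ENNReal.rpow_ne_top_of_nonneg (by linarith) hvt
  have hKt : v ^ (q / 2 - 1) * (v * C) ≠ ⊤ := ENNReal.mul_ne_top hv1
    (ENNReal.mul_ne_top hvt ENNReal.coe_ne_top)
  refine ⟨(v ^ (q / 2 - 1) * (v * C)).toNNReal, fun F hF hF1 => ?_⟩
  rw [ENNReal.coe_toNNReal hKt]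
  calc (∫⁻ p : E n × ℝ, (∫⁻ y : E k, ‖ext F ((sp n k).symm (p.1, y), p.2)‖ₑ ^ (2 : ℝ)) ^ (q / 2))
      = ∫⁻ p : E n × ℝ, (Mq (n := n) k 2 F p) ^ (q / 2) :=
        lintegral_congr fun p => by rw [slice_two' hF hF1]
    _ ≤ ∫⁻ p : E n × ℝ, v ^ (q / 2 - 1) * Mq (n := n) k q F p :=
        lintegral_mono fun p => M2_le hq hF p
    _ = v ^ (q / 2 - 1) * ∫⁻ p : E n × ℝ, Mq (n := n) k q F p := lintegral_const_mul' _ _ hv1
    _ ≤ v ^ (q / 2 - 1) * (v * C) := by
        gcongr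
        have := Mq_int (q := q) (C := C) hF univ fun η => by
          rw [Measure.restrict_univ]
          exact hC _ (sl_meas hF η) (sl_le hF1 η)
        rwa [Measure.restrict_univ] at this

theorem est_of_mixed {q : ℝ} (hq : 2 ≤ q) (h : Mixed n k q) : Estimate n q := by
  obtain ⟨C, hC⟩ := h
  have hq0 : 0 < q := by linarith
  set v := volume (cube k) with hv
  have hvt : v ≠ ⊤ := vol_cube_ne_top k
  have hv0 : v ≠ 0 := vol_cube_pos k
  have hw0 : v ^ (q / 2) ≠ 0 := by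
    simp [ENNReal.rpow_eq_zero_iff, hv0, hvt]
  have hwt : v ^ (q / 2) ≠ ⊤ := ENNReal.rpow_ne_top_of_nonneg (by positivity) hvt
  have hKt : (C : ℝ≥0∞) / v ^ (q / 2) ≠ ⊤ := ENNReal.div_ne_top ENNReal.coe_ne_top hw0
  refine ⟨((C : ℝ≥0∞) / v ^ (q / 2)).toNNReal, fun f hf hf1 => ?_⟩
  rw [ENNReal.coe_toNNReal hKt, ENNReal.le_div_iff_mul_le (Or.inl hw0) (Or.inl hwt)]
  have hone : ∀ ξ : E k, ‖(fun _ : E k => (1 : ℂ)) ξ‖ ≤ 1 := fun ξ => by simp
  have hF : Measurable (ten f fun _ : E k => (1 : ℂ)) := ten_meas hf measurable_const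
  have hF1 : ∀ ξ, ‖ten f (fun _ : E k => (1 : ℂ)) ξ‖ ≤ 1 := ten_le hf1 hone
  have h1 := hC _ hF hF1
  have h2 : ∀ p : E n × ℝ, (∫⁻ y : E k, ‖ext (ten f fun _ : E k => (1 : ℂ))
      ((sp n k).symm (p.1, y), p.2)‖ₑ ^ (2 : ℝ)) ^ (q / 2) = ‖ext f p‖ₑ ^ q * v ^ (q / 2) := by
    intro p
    rw [slice_two' hF hF1]
    have h3 : ∀ η : E k, sl (n := n) (k := k) (ten f fun _ : E k => (1 : ℂ)) η = f := by
      intro η
      funext ξ
      unfold sl ten
      rw [MeasurableEquiv.apply_symm_apply, mul_one]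
    unfold Mq
    simp only [h3]
    rw [setLIntegral_const, ENNReal.mul_rpow_of_nonneg _ _ (by positivity), ← ENNReal.rpow_mul]
    congr 2
    ring
  simp only [h2] at h1
  rwa [lintegral_mul_const' _ _ hwt] at h1

end Pool.Agent.H272.RD
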